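import Mathlib

/-!
# The distance to the integers
-/

set_option autoImplicit false

open Set

namespace Pool.Agent.TD

/-- The distance of `x` to the integers. -/
noncomputable def zz (x : ℝ) : ℝ := |x - round x|

theorem zz_le (x : ℝ) (m : ℤ) : zz x ≤ |x - m| := round_le x m

theorem le_zz {x c : ℝ} (h : ∀ m : ℤ, c ≤ |x - m|) : c ≤ zz x := h _

theorem zz_lip (x y : ℝ) : |zz x - zz y| ≤ |x - y| := by
  have key : ∀ x y : ℝ, zz x ≤ |x - y| + zz y := by
    intro x y
    refine (zz_le x (round y)).trans ?_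
    have h : x - round y = (x - y) + (y - round y) := by ring
    rw [h]
    exact abs_add_le _ _
  rw [abs_le]
  constructor
  · have := key y x
    rw [abs_sub_comm] at this
    linarith
  · linarith [key x y]

theorem zz_add_int (x : ℝ) (c : ℤ) : zz (x + c) = zz x := by
  unfold zz
  rw [round_add_intCast]
  push_cast
  congr 1
  ring

theorem zz_int_add {ρ : ℝ} (h0 : 0 ≤ ρ) (h1 : ρ ≤ 1 / 2) (m : ℤ) : zz (m + ρ) = ρ := by
  refine le_antisymm ?_ (le_zz fun z => ?_)
  · refine (zz_le _ m).trans ?_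
    rw [add_sub_cancel_left, abs_of_nonneg h0]
  · have h2 : (m : ℝ) + ρ - z = ((m - z : ℤ) : ℝ) + ρ := by
      push_cast
      ring
    rw [h2]
    rcases lt_trichotomy (m - z) 0 with h | h | h
    · have h3 : ((m - z : ℤ) : ℝ) ≤ -1 := by exact_mod_cast (by omega : m - z ≤ -1)
      rw [abs_of_nonpos (by linarith)]
      linarith
    · rw [h]
      simp [abs_of_nonneg h0]
    · have h3 : (1 : ℝ) ≤ ((m - z : ℤ) : ℝ) := by exact_mod_cast h
      rw [abs_of_nonneg (by linarith)]
      linarith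

theorem zz_int_sub {ρ : ℝ} (h0 : 0 ≤ ρ) (h1 : ρ ≤ 1 / 2) (m : ℤ) : zz (m - ρ) = ρ := by
  refine le_antisymm ?_ (le_zz fun z => ?_)
  · refine (zz_le _ m).trans ?_
    rw [sub_sub_cancel_left, abs_neg, abs_of_nonneg h0]
  · have h2 : (m : ℝ) - ρ - z = ((m - z : ℤ) : ℝ) - ρ := by
      push_cast
      ring
    rw [h2]
    rcases lt_trichotomy (m - z) 0 with h | h | h
    · have h3 : ((m - z : ℤ) : ℝ) ≤ -1 := by exact_mod_cast (by omega : m - z ≤ -1)
      rw [abs_of_nonpos (by linarith)]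
      linarith
    · rw [h]
      simp [abs_of_nonneg h0]
    · have h3 : (1 : ℝ) ≤ ((m - z : ℤ) : ℝ) := by exact_mod_cast h
      rw [abs_of_nonneg (by linarith)]
      linarith

theorem zz_nonneg (x : ℝ) : 0 ≤ zz x := abs_nonneg _

theorem zz_le_half (x : ℝ) : zz x ≤ 1 / 2 := abs_sub_round x

theorem floor_eq_of_far {e z z' : ℝ} (h : ∀ m : ℤ, e ≤ |z - m|) (hd : |z - z'| < e) :
    ⌊z'⌋ = ⌊z⌋ := by
  have h1 := h ⌊z⌋
  have h2 := h (⌊z⌋ + 1)
  have h3 := Int.floor_le z
  have h4 := Int.lt_floor_add_one z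
  rw [abs_of_nonneg (by linarith)] at h1
  push_cast at h2
  rw [abs_of_nonpos (by linarith)] at h2
  have h5 := abs_lt.1 hd
  rw [Int.floor_eq_iff]
  constructor <;> linarith

/-- The state of the point `x` of the line for the threshold `ρ`. -/
noncomputable def sg (ρ x : ℝ) : ℤ := ⌊x - ρ⌋ + ⌊x + ρ⌋

theorem sg_eq {ρ e x y : ℝ} (h0 : 0 ≤ ρ) (h1 : ρ ≤ 1 / 2) (hf : e ≤ |zz x - ρ|)
    (hd : |x - y| < e) : sg ρ y = sg ρ x := by
  unfold sg
  have e1 : ⌊y - ρ⌋ = ⌊x - ρ⌋ := by
    refine floor_eq_of_far (e := e) (fun m => ?_) ?_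
    · refine hf.trans ?_
      have h2 := zz_lip x (m + ρ)
      rw [zz_int_add h0 h1] at h2
      refine h2.trans (le_of_eq ?_)
      congr 1
      ring
    · have : x - ρ - (y - ρ) = x - y := by ring
      rwa [this]
  have e2 : ⌊y + ρ⌋ = ⌊x + ρ⌋ := by
    refine floor_eq_of_far (e := e) (fun m => ?_) ?_
    · refine hf.trans ?_
      have h2 := zz_lip x (m - ρ)
      rw [zz_int_sub h0 h1] at h2
      refine h2.trans (le_of_eq ?_)
      congr 1
      ring
    · have : x + ρ - (y + ρ) = x - y := by ring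
      rwa [this]
  rw [e1, e2]

theorem sg_add_int (ρ x : ℝ) (c : ℤ) : sg ρ (x + c) = sg ρ x + 2 * c := by
  unfold sg
  have e1 : x + c - ρ = x - ρ + c := by ring
  have e2 : x + c + ρ = x + ρ + c := by ring
  rw [e1, e2, Int.floor_add_intCast, Int.floor_add_intCast]
  ring

theorem sg_le (ρ x : ℝ) : (sg ρ x : ℝ) ≤ 2 * x := by
  unfold sg
  push_cast
  linarith [Int.floor_le (x - ρ), Int.floor_le (x + ρ)]

theorem lt_sg (ρ x : ℝ) : 2 * x - 2 < (sg ρ x : ℝ) := by
  unfold sg
  push_cast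
  linarith [Int.lt_floor_add_one (x - ρ), Int.lt_floor_add_one (x + ρ)]

theorem sg_mono (ρ : ℝ) {x y : ℝ} (h : x ≤ y) : sg ρ x ≤ sg ρ y :=
  add_le_add (Int.floor_le_floor (by linarith)) (Int.floor_le_floor (by linarith))

/-- The distance to the integers is concave between two integers. -/
theorem concave_zz (m : ℤ) : ConcaveOn ℝ (Icc (m : ℝ) (m + 1)) zz := by
  have h1 : ∀ x ∈ Icc (m : ℝ) (m + 1), zz x = min (x - m) (m + 1 - x) := by
    intro x hx
    refine le_antisymm (le_min ?_ ?_) (le_zz fun z => ?_)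
    · have := zz_le x m
      rwa [abs_of_nonneg (by linarith [hx.1])] at this
    · have := zz_le x (m + 1)
      push_cast at this
      rw [abs_of_nonpos (by linarith [hx.2])] at this
      linarith
    · rcases le_or_gt z m with h | h
      · have h2 : (z : ℝ) ≤ m := by exact_mod_cast h
        rw [abs_of_nonneg (by linarith [hx.1])]
        exact (min_le_left _ _).trans (by linarith)
      · have h2 : (m : ℝ) + 1 ≤ z := by exact_mod_cast h
        rw [abs_of_nonpos (by linarith [hx.2])]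
        exact (min_le_right _ _).trans (by linarith)
  have h2 : ConcaveOn ℝ (Icc (m : ℝ) (m + 1)) fun x => min (x - m) ((m : ℝ) + 1 - x) := by
    refine ConcaveOn.inf ?_ ?_
    · exact (concaveOn_id (convex_Icc _ _)).sub (convexOn_const _ (convex_Icc _ _))
    · exact (concaveOn_const _ (convex_Icc _ _)).sub (convexOn_id (convex_Icc _ _))
  exact h2.congr fun x hx => (h1 x hx).symm

end Pool.Agent.TD
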