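import Pool.Agent.Lib.MP_98022b_tl.LineGeo
import Pool.Agent.Lib.MP_98022b_tl.Zigzag
import Pool.Agent.Lib.MP_98022b_td.AsmQ

/-!
# The discretization of the product with the line
-/

set_option autoImplicit false

open Set Filter Topology

namespace Pool.Agent.TD

open Pool.Agent.GLN

/-! ### Changes of a pair of states -/

open Classical in
/-- The number of the changes of `u` along `s`. -/
noncomputable def chg {α : Type} (u : ℝ → α) (s : ℕ → ℝ) : ℕ → ℕ
  | 0 => 0
  | n + 1 => chg u s n + if u (s n) = u (s (n + 1)) then 0 else 1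

/-- There is a chain which changes at each step. -/
theorem exists_chain {α : Type} (u : ℝ → α) (s : ℕ → ℝ) (n : ℕ)
    (hs : ∀ i < n, s i ≤ s (i + 1)) : ∃ t : ℕ → ℝ, (∀ i < chg u s n, t i ≤ t (i + 1)) ∧
      s 0 ≤ t 0 ∧ t (chg u s n) ≤ s n ∧ u (t (chg u s n)) = u (s n) ∧
      ∀ i < chg u s n, u (t i) ≠ u (t (i + 1)) := by
  classical
  induction n with
  | zero => exact ⟨s, fun i hi => absurd hi (Nat.not_lt_zero i), le_rfl, le_rfl, rfl,
      fun i hi => absurd hi (Nat.not_lt_zero i)⟩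
  | succ n ih =>
    obtain ⟨t, h1, h2, h3, h4, h5⟩ := ih fun i hi => hs i (by omega)
    have hsn := hs n (Nat.lt_succ_self n)
    by_cases h : u (s n) = u (s (n + 1))
    · have e : chg u s (n + 1) = chg u s n := by
        show chg u s n + _ = _
        rw [if_pos h, add_zero]
      rw [e]
      exact ⟨t, h1, h2, h3.trans hsn, h4.trans h, h5⟩
    · have e : chg u s (n + 1) = chg u s n + 1 := by
        show chg u s n + _ = _
        rw [if_neg h]
      rw [e]
      obtain ⟨k, hk⟩ : ∃ k, k = chg u s n := ⟨_, rfl⟩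
      rw [← hk] at h1 h3 h4 h5 ⊢
      refine ⟨fun i => if i ≤ k then t i else s (n + 1), fun i hi => ?_, ?_, ?_, ?_, fun i hi => ?_⟩
      · rcases Nat.lt_or_ge i k with hik | hik
        · have e1 : i ≤ k := hik.le
          have e2 : i + 1 ≤ k := hik
          simp only [e1, e2, if_true]
          exact h1 i hik
        · have e1 : i = k := by omega
          subst e1
          have e2 : ¬ i + 1 ≤ i := by omega
          simp only [le_rfl, e2, if_true, if_false]
          exact h3.trans hsn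
      · simpa using h2
      · have e2 : ¬ k + 1 ≤ k := by omega
        simp only [e2, if_false]
        exact le_rfl
      · have e2 : ¬ k + 1 ≤ k := by omega
        simp only [e2, if_false]
      · rcases Nat.lt_or_ge i k with hik | hik
        · have e1 : i ≤ k := hik.le
          have e2 : i + 1 ≤ k := hik
          simp only [e1, e2, if_true]
          exact h5 i hik
        · have e1 : i = k := by omega
          subst e1
          have e2 : ¬ i + 1 ≤ i := by omega
          simp only [le_rfl, e2, if_true, if_false]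
          rw [h4]
          exact h

theorem le_chg_add {α β : Type} (u : ℝ → α) (v : ℝ → β) (s : ℕ → ℝ) (n : ℕ)
    (h : ∀ i < n, (u (s i), v (s i)) ≠ (u (s (i + 1)), v (s (i + 1)))) :
    n ≤ chg u s n + chg v s n := by
  classical
  induction n with
  | zero => exact Nat.zero_le _
  | succ n ih =>
    have h1 := ih fun i hi => h i (by omega)
    have h2 := h n (Nat.lt_succ_self n)
    have h3 : u (s n) ≠ u (s (n + 1)) ∨ v (s n) ≠ v (s (n + 1)) := by
      by_contra hcon
      push Not at hcon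
      exact h2 (Prod.ext hcon.1 hcon.2)
    show n + 1 ≤ (chg u s n + _) + (chg v s n + _)
    rcases h3 with h3 | h3
    · rw [if_neg h3]
      split_ifs <;> omega
    · rw [if_neg h3]
      split_ifs <;> omega

/-- Changes of the states of the line. -/
theorem chain_sg {ρ a w : ℝ} (hw : |w| ≤ 1) {n : ℕ} {t : ℕ → ℝ} (h1 : ∀ i < n, t i ≤ t (i + 1))
    (h2 : t n ≤ t 0 + 1) (h3 : ∀ i < n, sg ρ (a + w * t i) ≠ sg ρ (a + w * t (i + 1))) :
    n ≤ 4 := by
  have h0n := chain_le h1 (Nat.zero_le n) le_rfl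
  have hw' := abs_le.1 hw
  have e1 := sg_le ρ (a + w * t 0)
  have e2 := lt_sg ρ (a + w * t 0)
  have e3 := sg_le ρ (a + w * t n)
  have e4 := lt_sg ρ (a + w * t n)
  have e5 : |w * (t n - t 0)| ≤ 1 := by
    rw [abs_mul, abs_of_nonneg (by linarith : 0 ≤ t n - t 0)]
    calc |w| * (t n - t 0) ≤ 1 * 1 := mul_le_mul hw (by linarith) (by linarith) zero_le_one
      _ = 1 := one_mul 1
  have e6 := abs_le.1 e5
  have e7 : w * (t n - t 0) = w * t n - w * t 0 := by ring
  rw [e7] at e6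
  rcases le_total 0 w with hw0 | hw0
  · have key : ∀ m ≤ n, sg ρ (a + w * t 0) + m ≤ sg ρ (a + w * t m) := by
      intro m
      induction m with
      | zero => intro _; simp
      | succ m ih =>
        intro hm
        have h4 := ih (by omega)
        have h5 := sg_mono ρ (show a + w * t m ≤ a + w * t (m + 1) by
          have := mul_le_mul_of_nonneg_left (h1 m (by omega)) hw0
          linarith)
        have h6 := h3 m (by omega)
        push_cast
        omega
    have h4 : (sg ρ (a + w * t 0) : ℝ) + n ≤ sg ρ (a + w * t n) := by exact_mod_cast key n le_rfl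
    have h5 : (n : ℝ) < 5 := by linarith
    have h6 : n < 5 := by exact_mod_cast h5
    omega
  · have key : ∀ m ≤ n, sg ρ (a + w * t m) + m ≤ sg ρ (a + w * t 0) := by
      intro m
      induction m with
      | zero => intro _; simp
      | succ m ih =>
        intro hm
        have h4 := ih (by omega)
        have h5 := sg_mono ρ (show a + w * t (m + 1) ≤ a + w * t m by
          have := mul_le_mul_of_nonpos_left (h1 m (by omega)) hw0
          linarith)
        have h6 := h3 m (by omega)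
        push_cast
        omega
    have h4 : (sg ρ (a + w * t n) : ℝ) + n ≤ sg ρ (a + w * t 0) := by exact_mod_cast key n le_rfl
    have h5 : (n : ℝ) < 5 := by linarith
    have h6 : n < 5 := by exact_mod_cast h5
    omega

/-! ### The discretization -/

/-- The thresholds of the line. -/
def Rho : Type := {ρ : ℝ // 0 ≤ ρ ∧ ρ ≤ 1 / 2}

/-- Two thresholds. -/
noncomputable def rhoF (i : Fin 2) : Rho :=
  if i = 0 then (⟨0, le_rfl, by norm_num⟩ : {ρ : ℝ // 0 ≤ ρ ∧ ρ ≤ 1 / 2})
  else (⟨1 / 2, by norm_num, le_rfl⟩ : {ρ : ℝ // 0 ≤ ρ ∧ ρ ≤ 1 / 2})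

/-- The distance of the states of the product. -/
def dLine {V : Type} (dV : V → V → ℕ) (p q : V × ℤ) : ℕ :=
  max (dV p.1 q.1) ((p.2 - q.2).natAbs / 2)

variable {P G B V : Type} [Group G] [MetricSpace B] [MulAction G B] [MulAction G V]
  {dV : V → V → ℕ} {geo : B → B → ℝ → B}

/-- The state of a point of the product. -/
noncomputable def stL (Δ : DiscQ P G B V dV geo) (r : P × Rho) (p : B × ℝ) : V × ℤ :=
  (Δ.st r.1 p.1, sg r.2.1 p.2)

/-- Far points of the product. -/
def farL (Δ : DiscQ P G B V dV geo) (r : P × Rho) (e : ℝ) (p : B × ℝ) : Prop :=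
  Δ.far r.1 e p.1 ∧ e ≤ |zz p.2 - r.2.1|

/-- The index property for the product with the line. -/
def PairsL (Δ : DiscQ P G B V dV geo) : Prop :=
  ∃ K A : ℕ, ∀ n : ℕ, 2 ≤ n → ∃ (r : Fin K → P × Rho) (δ : Fin K → ℝ) (ε : ℝ), 0 < ε ∧
    1 / 2 ^ (n ^ A) ≤ ε ∧ (∀ k, ε ≤ δ k ∧ δ k ≤ 1 / 100) ∧
    ∀ (x y : B) (v a w : ℝ), 0 ≤ v → v ≤ 1 → |w| ≤ 1 → v * (5 * n) ≤ dist x y → ∃ k,
      ∀ s ∈ Icc 0 (5 * (n : ℝ)), ∀ s' ∈ Icc 0 (5 * (n : ℝ)),
        ¬ farL Δ (r k) ε (endPt geo x y (v * s), a + w * s) →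
        ¬ farL Δ (r k) ε (endPt geo x y (v * s'), a + w * s') →
        |s - s'| ≤ δ k ∨ 4 * δ k ≤ |s - s'|

theorem stL_eq (Δ : DiscQ P G B V dV geo) {r : P × Rho} {e : ℝ} {p q : B × ℝ}
    (h : farL Δ r e p) (hd : dist p q < e) : stL Δ r q = stL Δ r p := by
  rw [Prod.dist_eq, max_lt_iff] at hd
  exact Prod.ext (Δ.st_eq _ _ _ _ h.1 hd.1) (sg_eq r.2.2.1 r.2.2.2 h.2 hd.2)

/-- Constant states on intervals without bad times. -/
theorem const_of_eq {B' V' : Type} [MetricSpace B'] {st : B' → V'} {far : B' → Prop} {e : ℝ}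
    (he : 0 < e) (hst : ∀ p q, far p → dist p q < e → st q = st p) {u : ℝ → B'} {a b : ℝ}
    (hab : a ≤ b) (hu : ∀ s ∈ Icc a b, ∀ t ∈ Icc a b, dist (u s) (u t) ≤ |s - t|)
    (hfar : ∀ s ∈ Icc a b, far (u s)) : st (u a) = st (u b) := by
  refine isPreconnected_Icc.induction₂ (s := Icc a b) (fun s t => st (u s) = st (u t)) ?_ ?_ ?_
    ⟨le_rfl, hab⟩ ⟨hab, le_rfl⟩
  · intro s hs
    have hev : ∀ᶠ t in 𝓝[Icc a b] s, t ∈ Icc a b ∧ |t - s| < e := by
      refine (eventually_mem_nhdsWithin).and ?_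
      refine eventually_nhdsWithin_of_eventually_nhds ?_
      filter_upwards [Metric.ball_mem_nhds s he] with t ht
      rwa [Metric.mem_ball, Real.dist_eq] at ht
    filter_upwards [hev] with t ht
    refine (hst _ _ (hfar s hs) ((hu s hs t ht.1).trans_lt ?_)).symm
    rw [abs_sub_comm]
    exact ht.2
  · intro a b c _ _ _ h1 h2
    exact h1.trans h2
  · intro a b _ _ h
    exact h.symm

theorem dist_endPt_le' (hb : Bicomb B geo) {x y : B} {s t : ℝ} (hs : 0 ≤ s) (hs' : s ≤ dist x y)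
    (ht : 0 ≤ t) (ht' : t ≤ dist x y) : dist (endPt geo x y s) (endPt geo x y t) ≤ |s - t| := by
  rcases (hs.trans hs').eq_or_lt with h0 | h0
  · have e1 : s = 0 := le_antisymm (h0 ▸ hs') hs
    have e2 : t = 0 := le_antisymm (h0 ▸ ht') ht
    rw [e1, e2, dist_self, sub_self, abs_zero]
  · unfold endPt
    have h1 : s / dist x y ≤ 1 := (div_le_one h0).2 hs'
    have h2 : 0 ≤ s / dist x y := by positivity
    have h3 : t / dist x y ≤ 1 := (div_le_one h0).2 ht'
    have h4 : 0 ≤ t / dist x y := by positivity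
    refine (hb.speed x y _ _ (by linarith) (by linarith) (by linarith) (by linarith)).trans
      (le_of_eq ?_)
    rw [← abs_of_pos h0, ← abs_mul, abs_of_pos h0, abs_sub_comm s t]
    congr 1
    field_simp
    ring

/-- The discretization of the product with the line. -/
noncomputable def discL [MulAction G ℝ] [MulAction G ℤ] (c : G → ℤ)
    (hr : ∀ (g : G) (a : ℝ), g • a = a + c g) (hz : ∀ (g : G) (m : ℤ), g • m = m + 2 * c g)
    (hb : Bicomb B geo) (Δ : DiscQ P G B V dV geo) (hp : PairsL Δ) :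
    DiscQ (P × Rho) G (B × ℝ) (V × ℤ) (dLine dV) (geoL geo) where
  st := stL Δ
  far := farL Δ
  st_smul g r p := by
    refine Prod.ext (Δ.st_smul g r.1 p.1) ?_
    show sg r.2.1 (g • p.2) = g • sg r.2.1 p.2
    rw [hr, hz, sg_add_int]
  far_smul g r e p := by
    show Δ.far r.1 e (g • p.1) ∧ e ≤ |zz (g • p.2) - r.2.1| ↔ _
    rw [Δ.far_smul, hr, zz_add_int]
    exact Iff.rfl
  far_mono r e e' p h he := ⟨Δ.far_mono _ _ _ _ h.1 he, he.trans h.2⟩
  far_dist r e p q h := by
    have h1 : dist p.1 q.1 ≤ dist p q := by rw [Prod.dist_eq]; exact le_max_left _ _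
    have h2 : dist p.2 q.2 ≤ dist p q := by rw [Prod.dist_eq]; exact le_max_right _ _
    refine ⟨Δ.far_mono _ _ _ _ (Δ.far_dist _ _ _ _ h.1) (by linarith), ?_⟩
    have h3 := h.2
    have h4 : |zz p.2 - zz q.2| ≤ dist p.2 q.2 := by
      rw [Real.dist_eq]
      exact zz_lip p.2 q.2
    have h5 := abs_add_le (zz p.2 - zz q.2) (zz q.2 - r.2.1)
    have h6 : zz p.2 - zz q.2 + (zz q.2 - r.2.1) = zz p.2 - r.2.1 := by ring
    rw [h6] at h5
    linarith
  st_eq r e p q h hd := stL_eq Δ h hd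
  short := by
    obtain ⟨n, r, e, he, h⟩ := Δ.short
    refine ⟨n * 2, fun j => (r (finProdFinEquiv.symm j).1, rhoF (finProdFinEquiv.symm j).2),
      min e (1 / 4), lt_min he (by norm_num), fun p => ?_⟩
    obtain ⟨j, hj⟩ := h p.1
    have h1 := zz_nonneg p.2
    have h2 := zz_le_half p.2
    rcases le_total (1 / 4) (zz p.2) with h3 | h3
    · refine ⟨finProdFinEquiv (j, 0), ?_⟩
      simp only [Equiv.symm_apply_apply]
      refine ⟨Δ.far_mono _ _ _ _ hj (min_le_left _ _), (min_le_right _ _).trans ?_⟩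
      show 1 / 4 ≤ |zz p.2 - 0|
      rw [sub_zero, abs_of_nonneg h1]
      exact h3
    · refine ⟨finProdFinEquiv (j, 1), ?_⟩
      simp only [Equiv.symm_apply_apply]
      refine ⟨Δ.far_mono _ _ _ _ hj (min_le_left _ _), (min_le_right _ _).trans ?_⟩
      show 1 / 4 ≤ |zz p.2 - 1 / 2|
      rw [abs_of_nonpos (by linarith)]
      linarith
  near := by
    obtain ⟨C, hC⟩ := Δ.near
    refine ⟨C + 2, fun r r' p q => ?_⟩
    obtain ⟨h1, h2⟩ := hC r.1 r'.1 p.1 q.1
    obtain ⟨N, hN⟩ : ∃ N : ℕ, N = (sg r.2.1 p.2 - sg r'.2.1 q.2).natAbs := ⟨_, rfl⟩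
    have h3 : (N : ℝ) = |(sg r.2.1 p.2 : ℝ) - sg r'.2.1 q.2| := by
      rw [hN, Nat.cast_natAbs]
      push_cast
      rfl
    have e1 := sg_le r.2.1 p.2
    have e2 := lt_sg r.2.1 p.2
    have e3 := sg_le r'.2.1 q.2
    have e4 := lt_sg r'.2.1 q.2
    have h4 : (N : ℝ) ≤ 2 * dist p.2 q.2 + 2 ∧ 2 * dist p.2 q.2 ≤ N + 2 := by
      rw [h3, Real.dist_eq]
      constructor
      · rw [abs_le]
        rcases abs_cases (p.2 - q.2) with ⟨h, _⟩ | ⟨h, _⟩ <;> rw [h] <;> constructor <;> linarith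
      · rcases abs_cases (p.2 - q.2) with ⟨h, _⟩ | ⟨h, _⟩ <;> rw [h]
        · have := le_abs_self ((sg r.2.1 p.2 : ℝ) - sg r'.2.1 q.2)
          linarith
        · have := neg_abs_le ((sg r.2.1 p.2 : ℝ) - sg r'.2.1 q.2)
          linarith
    have h5 : ((N / 2 : ℕ) : ℝ) ≤ N / 2 := Nat.cast_div_le
    have h6 : (N : ℝ) ≤ 2 * ((N / 2 : ℕ) : ℝ) + 1 := by
      exact_mod_cast (by omega : N ≤ 2 * (N / 2) + 1)
    have h7 : ((dLine dV (stL Δ r p) (stL Δ r' q) : ℕ) : ℝ) =
        max ((dV (Δ.st r.1 p.1) (Δ.st r'.1 q.1) : ℕ) : ℝ) ((N / 2 : ℕ) : ℝ) := by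
      rw [← Nat.cast_max, hN]
      rfl
    rw [h7, Prod.dist_eq]
    have hC0 : (0 : ℝ) ≤ C := Nat.cast_nonneg C
    push_cast
    constructor
    · refine max_le ?_ ?_
      · have := le_max_left (dist p.1 q.1) (dist p.2 q.2)
        linarith
      · have := le_max_right (dist p.1 q.1) (dist p.2 q.2)
        linarith
    · refine max_le ?_ ?_
      · have := le_max_left ((dV (Δ.st r.1 p.1) (Δ.st r'.1 q.1) : ℕ) : ℝ) ((N / 2 : ℕ) : ℝ)
        linarith
      · have := le_max_right ((dV (Δ.st r.1 p.1) (Δ.st r'.1 q.1) : ℕ) : ℝ) ((N / 2 : ℕ) : ℝ)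
        linarith
  few := by
    obtain ⟨M, hM⟩ := Δ.few
    refine ⟨M + 4, fun r p q n s h1 h2 h3 h4 h5 => ?_⟩
    rcases eq_or_ne p q with hpq | hpq
    · -- a constant path
      rw [hpq, dist_self] at h4
      rcases Nat.eq_zero_or_pos n with hn | hn
      · omega
      · exfalso
        have h6 := chain_le h1 (Nat.zero_le 1) hn
        have h7 := chain_le h1 hn le_rfl
        have e0 : s 0 = 0 := le_antisymm (by linarith) h2
        have e1 : s 1 = 0 := le_antisymm (by linarith) (by linarith)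
        exact h5 0 hn (by rw [e0, e1])
    · obtain ⟨v, a, w, hv0, hv1, hw, hv, hw', hend⟩ := endPt_line geo hb p q hpq
      have hs0 : ∀ i ≤ n, 0 ≤ s i := fun i hi => h2.trans (chain_le h1 (Nat.zero_le i) hi)
      have hsn : ∀ i ≤ n, s i ≤ dist p q := fun i hi => (chain_le h1 hi le_rfl).trans h4
      have h6 := le_chg_add (fun t => Δ.st r.1 (endPt geo p.1 q.1 (v * t)))
        (fun t => sg r.2.1 (a + w * t)) s n (fun i hi heq => by
          refine h5 i hi ?_
          rw [hend _ (hs0 i hi.le) (hsn i hi.le), hend _ (hs0 (i + 1) hi) (hsn (i + 1) hi)]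
          exact heq)
      refine h6.trans (Nat.add_le_add ?_ ?_)
      · obtain ⟨t, k1, k2, k3, -, k5⟩ := exists_chain
          (fun t => Δ.st r.1 (endPt geo p.1 q.1 (v * t))) s n h1
        refine hM r.1 p.1 q.1 _ (fun i => v * t i)
          (fun i hi => mul_le_mul_of_nonneg_left (k1 i hi) hv0)
          (mul_nonneg hv0 (h2.trans k2)) ?_ ?_ k5
        · have k6 := chain_le k1 (Nat.zero_le _) le_rfl
          have : v * (t (chg (fun t => Δ.st r.1 (endPt geo p.1 q.1 (v * t))) s n) - t 0) ≤ 1 * 1 :=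
            mul_le_mul hv1 (by linarith) (by linarith) zero_le_one
          linarith
        · rw [← hv]
          exact mul_le_mul_of_nonneg_left (k3.trans h4) hv0
      · obtain ⟨t, k1, k2, k3, -, k5⟩ := exists_chain (fun t => sg r.2.1 (a + w * t)) s n h1
        exact chain_sg hw k1 (by linarith) k5
  pairs := by
    obtain ⟨K, A, h⟩ := hp
    refine ⟨K, A, fun n hn => ?_⟩
    obtain ⟨r, δ, ε, h1, h2, h3, h4⟩ := h n hn
    refine ⟨r, δ, ε, h1, h2, h3, fun p q hpq => ?_⟩
    have hn0 : (0 : ℝ) < n := by exact_mod_cast (by omega : 0 < n)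
    have hne : p ≠ q := by
      rintro rfl
      rw [dist_self] at hpq
      linarith
    obtain ⟨v, a, w, hv0, hv1, hw, hv, hw', hend⟩ := endPt_line geo hb p q hne
    obtain ⟨k, hk⟩ := h4 p.1 q.1 v a w hv0 hv1 hw (by
      rw [← hv]
      exact mul_le_mul_of_nonneg_left hpq hv0)
    refine ⟨k, ⟨fun s hs t ht hst hE => ?_, fun s hs t ht hsI htI => ?_⟩⟩
    · refine const_of_eq (st := stL Δ (r k)) (far := farL Δ (r k) ε) h1
        (fun p q hf hd => stL_eq Δ hf hd) (u := endPt (geoL geo) p q) hst (fun x hx y hy => ?_)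
        fun x hx => ?_
      · exact dist_endPt_le' (bicomb_line hb) (hs.1.trans hx.1) (hx.2.trans (ht.2.trans hpq))
          (hs.1.trans hy.1) (hy.2.trans (ht.2.trans hpq))
      · by_contra hcon
        exact hE x hcon hx
    · have e1 := hend s hsI.1 (hsI.2.trans hpq)
      have e2 := hend t htI.1 (htI.2.trans hpq)
      have hs' : ¬ farL Δ (r k) ε (endPt (geoL geo) p q s) := hs
      have ht' : ¬ farL Δ (r k) ε (endPt (geoL geo) p q t) := ht
      rw [e1] at hs'
      rw [e2] at ht'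
      exact hk s hsI t htI hs' ht'

/-- The number of the changes of the first component. -/
theorem chg_line [MulAction G ℝ] [MulAction G ℤ] (c : G → ℤ)
    (hr : ∀ (g : G) (a : ℝ), g • a = a + c g) (hz : ∀ (g : G) (m : ℤ), g • m = m + 2 * c g)
    (hb : Bicomb B geo) (Δ : DiscQ P G B V dV geo) (hp : PairsL Δ) :
    ∃ Λ : ℕ, ∀ (r : P × Rho) (p q : B × ℝ) (n : ℕ) (s : ℕ → ℝ), (∀ i < n, s i ≤ s (i + 1)) →
      0 ≤ s 0 → s n ≤ dist p q →
      (∀ i < n, ((discL c hr hz hb Δ hp).st r (endPt (geoL geo) p q (s i))).1 ≠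
        ((discL c hr hz hb Δ hp).st r (endPt (geoL geo) p q (s (i + 1)))).1) →
      n ≤ Λ * (dV ((discL c hr hz hb Δ hp).st r (endPt (geoL geo) p q (s 0))).1
        ((discL c hr hz hb Δ hp).st r (endPt (geoL geo) p q (s n))).1 + 1) := by
  obtain ⟨Cn, hnear⟩ := Δ.near
  obtain ⟨M, hfew⟩ := Δ.few
  refine ⟨(M + 1) * (Cn + 1), fun r p q n s h1 h2 h3 h4 => ?_⟩
  rcases eq_or_ne p q with hpq | hpq
  · rw [hpq, dist_self] at h3
    rcases Nat.eq_zero_or_pos n with hn | hn
    · omega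
    · exfalso
      have h6 := chain_le h1 (Nat.zero_le 1) hn
      have h7 := chain_le h1 hn le_rfl
      have e0 : s 0 = 0 := le_antisymm (by linarith) h2
      have e1 : s 1 = 0 := le_antisymm (by linarith) (by linarith)
      exact h4 0 hn (by rw [e0, e1])
  · obtain ⟨v, a, w, hv0, hv1, hw, hv, hw', hend⟩ := endPt_line geo hb p q hpq
    have hs0 : ∀ i ≤ n, 0 ≤ s i := fun i hi => h2.trans (chain_le h1 (Nat.zero_le i) hi)
    have hsn : ∀ i ≤ n, s i ≤ dist p q := fun i hi => (chain_le h1 hi le_rfl).trans h3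
    have hst : ∀ i ≤ n, ((discL c hr hz hb Δ hp).st r (endPt (geoL geo) p q (s i))).1 =
        Δ.st r.1 (endPt geo p.1 q.1 (v * s i)) := by
      intro i hi
      show (stL Δ r (endPt (geoL geo) p q (s i))).1 = _
      rw [hend _ (hs0 i hi) (hsn i hi)]
      rfl
    rw [hst 0 (Nat.zero_le n), hst n le_rfl]
    obtain ⟨u, hu⟩ : ∃ u : ℝ → V, u = fun s => Δ.st r.1 (endPt geo p.1 q.1 s) := ⟨_, rfl⟩
    have hf : Few u M (dist p.1 q.1) := by
      intro n s k1 k2 k3 k4 k5
      rw [hu] at k5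
      exact hfew r.1 p.1 q.1 n s k1 k2 k3 k4 k5
    have h0n : v * s 0 ≤ v * s n :=
      mul_le_mul_of_nonneg_left (chain_le h1 (Nat.zero_le n) le_rfl) hv0
    have hn1 : v * s n ≤ dist p.1 q.1 := by
      rw [← hv]
      exact mul_le_mul_of_nonneg_left h3 hv0
    obtain ⟨k, hk⟩ : ∃ k : ℕ, k = ⌊v * s n - v * s 0⌋₊ := ⟨_, rfl⟩
    have hk1 : v * s n ≤ v * s 0 + (k + 1) := by
      have := Nat.lt_floor_add_one (v * s n - v * s 0)
      rw [hk]
      linarith
    have hk2 : (k : ℝ) ≤ v * s n - v * s 0 := by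
      rw [hk]
      exact Nat.floor_le (by linarith)
    have h5 := hf.long k n (fun i => v * s i)
      (fun i hi => mul_le_mul_of_nonneg_left (h1 i hi) hv0) (mul_nonneg hv0 h2) hk1 hn1
      (fun i hi => by
        have h6 := h4 i hi
        rw [hst i hi.le, hst (i + 1) hi] at h6
        rw [hu]
        exact h6)
    have h6 := dist_endPt_endPt hb (mul_nonneg hv0 h2) h0n hn1
    have h7 := (hnear r.1 r.1 (endPt geo p.1 q.1 (v * s 0)) (endPt geo p.1 q.1 (v * s n))).2
    have h8 : k ≤ dV (Δ.st r.1 (endPt geo p.1 q.1 (v * s 0)))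
        (Δ.st r.1 (endPt geo p.1 q.1 (v * s n))) + Cn := by
      have : (k : ℝ) ≤ dV (Δ.st r.1 (endPt geo p.1 q.1 (v * s 0)))
          (Δ.st r.1 (endPt geo p.1 q.1 (v * s n))) + Cn := by
        linarith
      exact_mod_cast this
    refine h5.trans ?_
    rw [mul_assoc]
    refine Nat.mul_le_mul_left _ ?_
    nlinarith

end Pool.Agent.TD
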