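import Pool.Agent.Lib.MP_98022b_gln.ConeDefs
import Pool.Agent.Lib.MP_98022b_gln.GeoIface

/-!
# The product with the line: bicombing and covers

The product `B × ℝ` has the maximum metric.
-/

set_option autoImplicit false

open Set Filter Topology

namespace Pool.Agent.TD

open Pool.Agent.GLN

variable {B : Type} [MetricSpace B] {geo : B → B → ℝ → B}

/-- The bicombing of the product with the line. -/
def geoL (geo : B → B → ℝ → B) (p q : B × ℝ) (t : ℝ) : B × ℝ :=
  (geo p.1 q.1 t, (1 - t) * p.2 + t * q.2)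

theorem bicomb_line (hb : Bicomb B geo) : Bicomb (B × ℝ) (geoL geo) where
  zero p q := Prod.ext (hb.zero _ _) (by simp [geoL])
  one p q := Prod.ext (hb.one _ _) (by simp [geoL])
  speed p q s t hs hs' ht ht' := by
    rw [Prod.dist_eq, Prod.dist_eq]
    refine max_le ?_ ?_
    · exact (hb.speed _ _ s t hs hs' ht ht').trans
        (mul_le_mul_of_nonneg_left (le_max_left _ _) (abs_nonneg _))
    · have h1 : dist (geoL geo p q s).2 (geoL geo p q t).2 = |s - t| * dist p.2 q.2 := by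
        rw [Real.dist_eq, Real.dist_eq, ← abs_mul, ← abs_neg]
        congr 1
        simp only [geoL]
        ring
      rw [h1]
      exact mul_le_mul_of_nonneg_left (le_max_right _ _) (abs_nonneg _)
  conical p q p' q' t ht ht' := by
    have h1t : 0 ≤ 1 - t := by linarith
    rw [Prod.dist_eq]
    have e1 : dist p.1 p'.1 ≤ dist p p' := by rw [Prod.dist_eq]; exact le_max_left _ _
    have e2 : dist q.1 q'.1 ≤ dist q q' := by rw [Prod.dist_eq]; exact le_max_left _ _
    have e3 : dist p.2 p'.2 ≤ dist p p' := by rw [Prod.dist_eq]; exact le_max_right _ _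
    have e4 : dist q.2 q'.2 ≤ dist q q' := by rw [Prod.dist_eq]; exact le_max_right _ _
    refine max_le ?_ ?_
    · refine (hb.conical _ _ _ _ t ht ht').trans ?_
      exact add_le_add (mul_le_mul_of_nonneg_left e1 h1t) (mul_le_mul_of_nonneg_left e2 ht)
    · have h1 : dist (geoL geo p q t).2 (geoL geo p' q' t).2 ≤
          (1 - t) * dist p.2 p'.2 + t * dist q.2 q'.2 := by
        rw [Real.dist_eq, Real.dist_eq, Real.dist_eq]
        have h2 : (geoL geo p q t).2 - (geoL geo p' q' t).2 =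
            (1 - t) * (p.2 - p'.2) + t * (q.2 - q'.2) := by
          simp only [geoL]
          ring
        rw [h2]
        refine (abs_add_le _ _).trans ?_
        rw [abs_mul, abs_mul, abs_of_nonneg h1t, abs_of_nonneg ht]
      refine h1.trans ?_
      exact add_le_add (mul_le_mul_of_nonneg_left e3 h1t) (mul_le_mul_of_nonneg_left e4 ht)
  consistent p q a b t ha ha' hb' hb'' ht ht' := by
    refine Prod.ext (hb.consistent _ _ a b t ha ha' hb' hb'' ht ht') ?_
    simp only [geoL]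
    ring

theorem smallCovers_line {n : ℕ} (h : SmallCovers B n) : SmallCovers (B × ℝ) (2 * n + 1) := by
  intro ε hε
  obtain ⟨κ, U, hU, hcov, hdiam, hmult⟩ := h ε hε
  obtain ⟨δ, hδ⟩ : ∃ δ : ℝ, δ = ε / 3 := ⟨_, rfl⟩
  have hδ0 : 0 < δ := by rw [hδ]; positivity
  refine ⟨κ × ℤ, fun j => U j.1 ×ˢ Ioo ((j.2 : ℝ) * δ) (((j.2 : ℝ) + 2) * δ), fun j =>
    (hU j.1).prod isOpen_Ioo, ?_, ?_, ?_⟩
  · ext p
    simp only [mem_iUnion, mem_univ, iff_true]
    have h1 : p.1 ∈ ⋃ j, U j := by rw [hcov]; trivial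
    obtain ⟨j, hj⟩ := mem_iUnion.1 h1
    refine ⟨(j, ⌈p.2 / δ⌉ - 1), hj, ?_, ?_⟩
    · show ((⌈p.2 / δ⌉ - 1 : ℤ) : ℝ) * δ < p.2
      push_cast
      have h2 := Int.ceil_lt_add_one (p.2 / δ)
      rw [← lt_div_iff₀ hδ0]
      linarith
    · show p.2 < (((⌈p.2 / δ⌉ - 1 : ℤ) : ℝ) + 2) * δ
      push_cast
      have h2 := Int.le_ceil (p.2 / δ)
      rw [← div_lt_iff₀ hδ0]
      linarith
  · rintro ⟨j, m⟩ p ⟨hp1, hp2⟩ q ⟨hq1, hq2⟩
    rw [Prod.dist_eq]
    refine max_lt (hdiam j _ hp1 _ hq1) ?_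
    rw [Real.dist_eq, abs_lt]
    have h3 : ((m : ℝ) + 2) * δ = m * δ + 2 * δ := by ring
    have h4 : 2 * δ < ε := by
      rw [hδ]
      linarith
    have hp := hp2
    have hq := hq2
    simp only [mem_Ioo] at hp hq
    constructor <;> linarith [hp.1, hp.2, hq.1, hq.2]
  · intro p
    have hsub : {j : κ × ℤ | p ∈ U j.1 ×ˢ Ioo ((j.2 : ℝ) * δ) (((j.2 : ℝ) + 2) * δ)} ⊆
        {j | p.1 ∈ U j} ×ˢ ({⌈p.2 / δ⌉ - 1, ⌈p.2 / δ⌉ - 2} : Set ℤ) := by
      rintro ⟨j, m⟩ ⟨h1, h2, h3⟩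
      refine ⟨h1, ?_⟩
      have h4 : (m : ℝ) < p.2 / δ := by rwa [lt_div_iff₀ hδ0]
      have h5 : p.2 / δ < m + 2 := by rwa [div_lt_iff₀ hδ0]
      have h6 : m < ⌈p.2 / δ⌉ := Int.lt_ceil.2 h4
      have h7 : ⌈p.2 / δ⌉ ≤ m + 2 := Int.ceil_le.2 (by push_cast; exact h5.le)
      simp only [mem_insert_iff, mem_singleton_iff]
      omega
    refine (Set.encard_le_encard hsub).trans ?_
    rw [Set.encard_prod]
    have h1 : ({⌈p.2 / δ⌉ - 1, ⌈p.2 / δ⌉ - 2} : Set ℤ).encard ≤ 2 := by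
      refine (Set.encard_insert_le _ _).trans ?_
      rw [Set.encard_singleton]
      norm_num
    calc {j | p.1 ∈ U j}.encard * ({⌈p.2 / δ⌉ - 1, ⌈p.2 / δ⌉ - 2} : Set ℤ).encard
        ≤ ((n : ℕ∞) + 1) * 2 := mul_le_mul' (hmult p.1) h1
      _ = ((2 * n + 1 : ℕ) : ℕ∞) + 1 := by
          push_cast
          ring

/-- The path to the end of a geodesic of the product. -/
theorem endPt_line (geo : B → B → ℝ → B) (hb : Bicomb B geo) (p q : B × ℝ) (hpq : p ≠ q) :
    ∃ v a w : ℝ, 0 ≤ v ∧ v ≤ 1 ∧ |w| ≤ 1 ∧ v * dist p q = dist p.1 q.1 ∧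
      |w| * dist p q = dist p.2 q.2 ∧
      ∀ s, 0 ≤ s → s ≤ dist p q →
        endPt (geoL geo) p q s = (endPt geo p.1 q.1 (v * s), a + w * s) := by
  have hT : 0 < dist p q := dist_pos.2 hpq
  have h1 : dist p.1 q.1 ≤ dist p q := by rw [Prod.dist_eq]; exact le_max_left _ _
  have h2 : dist p.2 q.2 ≤ dist p q := by rw [Prod.dist_eq]; exact le_max_right _ _
  refine ⟨dist p.1 q.1 / dist p q, q.2, (p.2 - q.2) / dist p q, by positivity,
    (div_le_one hT).2 h1, ?_, ?_, ?_, fun s hs hs' => ?_⟩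
  · rw [abs_div, abs_of_pos hT, div_le_one hT, ← Real.dist_eq]
    exact h2
  · field_simp
  · rw [abs_div, abs_of_pos hT, ← Real.dist_eq]
    field_simp
  · refine Prod.ext ?_ ?_
    · show geo p.1 q.1 (1 - s / dist p q) =
        geo p.1 q.1 (1 - dist p.1 q.1 / dist p q * s / dist p.1 q.1)
      rcases eq_or_ne (dist p.1 q.1) 0 with h0 | h0
      · have e1 : p.1 = q.1 := dist_eq_zero.1 h0
        have h3 : 0 ≤ 1 - s / dist p q := by
          have := (div_le_one hT).2 hs'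
          linarith
        have h4 : 1 - s / dist p q ≤ 1 := by
          have : 0 ≤ s / dist p q := by positivity
          linarith
        rw [h0, zero_div, zero_mul, zero_div, sub_zero, hb.one, ← e1]
        have h5 := hb.speed p.1 p.1 (1 - s / dist p q) 1 h3 h4 zero_le_one le_rfl
        rw [dist_self, mul_zero, hb.one] at h5
        exact dist_le_zero.1 h5
      · congr 2
        field_simp
    · show (1 - (1 - s / dist p q)) * p.2 + (1 - s / dist p q) * q.2 = q.2 + (p.2 - q.2) / dist p q * s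
      field_simp
      ring

end Pool.Agent.TD
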