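import Pool.Agent.Lib.MP_98022b_tl.LinePairs
import Pool.Agent.Lib.MP_98022b_tl.LineMem
import Pool.Agent.Lib.MP_98022b_td.FinalQ
import Pool.Agent.Lib.MP_98022b_cc.MedRel

/-!
# Groups acting on finite dimensional CAT(0) complexes, relative to a homomorphism
-/

set_option autoImplicit false

open Set Filter Topology

open scoped Pointwise

namespace Pool.Agent.TD

open Pool.Agent.GLN Pool.Agent.FJ Pool.Agent.FA

/-- The discretization of a Euclidean complex with the index property for the line. -/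
theorem exists_discQ_line {X V Γ : Type} [MetricSpace X] [CompleteSpace X] (hX : IsCAT0 X)
    (K : EComplex X V) (hfin : K.lens.Finite) {d : ℕ} (hd : ∀ s ∈ K.faces, s.card ≤ d + 1)
    [Group Γ] [MulAction Γ X] [MulAction Γ V]
    (hco : ∀ (g : Γ) x v, K.co (g • x) (g • v) = K.co x v) :
    ∃ Δ : DiscQ ND.Thr Γ X X (fun x y => ⌊dist x y⌋₊) (geo (X := X)), PairsL Δ := by
  obtain ⟨L, hL, hlip, hdiam, _⟩ := EComplex.exists_lip (K := K) hX hfin hd
  have hL0 : 0 < L := by linarith
  have hd' : ∀ s ∈ K.faces, s.card ≤ (d + 1) + 1 := fun s hs => (hd s hs).trans (by omega)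
  refine ⟨ND.discQ (Pool.Agent.BP.fewWin_of_cat0 hX K hfin hd) hL0 hlip hdiam (d := d + 1)
    hd' (by omega) hfin hco, ?_⟩
  exact ND.pairsL_of_win (Pool.Agent.BP.fewWin_of_cat0 hX K hfin hd) hL0 hlip hd' hfin
    (Lc := ⌈((d + 1 : ℕ) : ℝ) * L⌉₊ + 1)
    (by push_cast; linarith [Nat.le_ceil (((d : ℝ) + 1) * L)]) (by omega)
    fun x y s t h0 h1 h2 h3 => dist_endPt_le' (bicomb_geo hX) h0 h1 h2 h3

variable {Γ X V : Type} [Group Γ] [MetricSpace X] [MulAction Γ X] [MulAction Γ V]
  {K : EComplex X V}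

/-- The discretization with the faces as states. -/
noncomputable def toFaceG (h : IsSimplicial Γ K) {L : ℝ}
    (hL : ∀ x y s, K.In x s → K.In y s → dist x y ≤ L) {P : Type}
    (Δ : DiscQ P Γ X X (fun x y => ⌊dist x y⌋₊) geo) :
    DiscQ P Γ X (faceAct h) (dFace h) geo where
  st r w := ⟨K.vs (Δ.st r w), _, rfl⟩
  far := Δ.far
  st_smul g r w := by
    refine Subtype.ext ?_
    change K.vs (Δ.st r (g • w)) = g • K.vs (Δ.st r w)
    rw [Δ.st_smul]
    exact h.vs_smul g _
  far_smul := Δ.far_smul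
  far_mono := Δ.far_mono
  far_dist := Δ.far_dist
  st_eq r e w w' hf hd := by
    refine Subtype.ext ?_
    change K.vs (Δ.st r w') = K.vs (Δ.st r w)
    rw [Δ.st_eq r e w w' hf hd]
  short := Δ.short
  near := by
    obtain ⟨C, hC⟩ := Δ.near
    obtain ⟨N, hN⟩ := exists_nat_ge (2 * L + 1)
    refine ⟨C + N + 1, fun r r' w w' => ?_⟩
    obtain ⟨h1, h2⟩ := hC r r' w w'
    obtain ⟨h3, h4⟩ := EComplex.dF_vs_near hL (Δ.st r w) (Δ.st r' w')
    have h5 : (⌊dist (Δ.st r w) (Δ.st r' w')⌋₊ : ℝ) ≤ dist (Δ.st r w) (Δ.st r' w') :=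
      Nat.floor_le dist_nonneg
    have h6 : dist (Δ.st r w) (Δ.st r' w') < ⌊dist (Δ.st r w) (Δ.st r' w')⌋₊ + 1 :=
      Nat.lt_floor_add_one _
    simp only [dFace]
    push_cast
    constructor <;> linarith
  few := by
    obtain ⟨M, hM⟩ := Δ.few
    refine ⟨M, fun r x y n s h1 h2 h3 h4 h5 => hM r x y n s h1 h2 h3 h4 fun i hi heq => ?_⟩
    exact h5 i hi (Subtype.ext (congrArg K.vs heq))
  pairs := by
    obtain ⟨N, A, hp⟩ := Δ.pairs
    refine ⟨N, A, fun n hn => ?_⟩
    obtain ⟨r, δ, ε, h1, h2, h3, h4⟩ := hp n hn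
    refine ⟨r, δ, ε, h1, h2, h3, fun x y hxy => ?_⟩
    obtain ⟨k, hk⟩ := h4 x y hxy
    refine ⟨k, ⟨fun s hs t ht hst he => Subtype.ext (congrArg K.vs (hk.const s hs t ht hst he)),
      hk.gap⟩⟩

/-- THE RELATIVE THEOREM. Let `Γ` act by simplicial isometries on a complete CAT(0) Euclidean
complex of finite dimension with finitely many shapes, and let `f : Γ → Q` be a homomorphism to a
group in the class. Let `N` be the kernel of `f`. Suppose that the intersections of the stabilizers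
of the vertices with the preimages of the cyclic subgroups of `Q` are in the class, that the chains
of the intersections of `N` with the pointwise stabilizers of finite sets of simplices which contain
two far simplices have bounded length, and that for each such intersection `F` and each element `t`
of `Γ` which normalizes `F` the group generated by `F` and `t` is in the class. Then `Γ` is in the
class. -/
theorem mem_of_complex_rel {P : ∀ (G : Type) [Group G], Prop} (hP : IsFJClassT P)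
    [CompleteSpace X] [Nonempty X] (hX : IsCAT0 X) (hfin : K.lens.Finite) {d : ℕ}
    (hd : ∀ s ∈ K.faces, s.card ≤ d + 1) (hact : IsSimplicial Γ K) {Q : Type} [Group Q]
    (f : Γ →* Q) (hQ : P Q) (k l : ℕ)
    (hv : ∀ (v : V) (q : Q),
      P (MulAction.stabilizer Γ v ⊓ (Subgroup.zpowers q).comap f : Subgroup Γ))
    (hchain : ∀ T : ℕ → Set (Set V), (∀ i, (T i).Finite) → (∀ i, ∀ C ∈ T i, K.IsFace C) →
      (∀ i, T i ⊆ T (i + 1)) →
      (∃ C ∈ T 0, ∃ C' ∈ T 0, ∀ u ∈ C, ∀ v ∈ C', (k : ℝ) ≤ dist (K.pos u) (K.pos v)) →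
      ∃ i < l, fixingSubgroup Γ (T i) ⊓ f.ker = fixingSubgroup Γ (T (i + 1)) ⊓ f.ker)
    (hnorm : ∀ T : Set (Set V), T.Finite → (∀ C ∈ T, K.IsFace C) →
      (∃ C ∈ T, ∃ C' ∈ T, ∀ u ∈ C, ∀ v ∈ C', (k : ℝ) ≤ dist (K.pos u) (K.pos v)) → ∀ t : Γ,
      (∀ j, j ∈ fixingSubgroup Γ T ⊓ f.ker ↔ t * j * t⁻¹ ∈ fixingSubgroup Γ T ⊓ f.ker) →
      P ((fixingSubgroup Γ T ⊓ f.ker) ⊔ Subgroup.zpowers t : Subgroup Γ)) : P Γ := by
  have hP' := hP.toIsFJClass
  have hactK : ∀ K' : Subgroup Γ, IsSimplicial K' K := fun K' =>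
    ⟨fun g x y => hact.isom (g : Γ) x y, fun g x v => hact.co_smul (g : Γ) x v⟩
  -- the stabilizers in a subgroup
  have hstab : ∀ (K' : Subgroup Γ) (q : Q), K' ≤ (Subgroup.zpowers q).comap f → ∀ x : V,
      P (MulAction.stabilizer K' x) := by
    intro K' q hK x
    refine hP.of_injective ((K'.subtype.comp (MulAction.stabilizer K' x).subtype).codRestrict
      (MulAction.stabilizer Γ x ⊓ (Subgroup.zpowers q).comap f) fun g => ?_) ?_ (hv x q)
    · exact ⟨g.2, hK g.1.2⟩
    · intro a b hab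
      have h1 := congrArg (fun y : (MulAction.stabilizer Γ x ⊓
        (Subgroup.zpowers q).comap f : Subgroup Γ) => (y : Γ)) hab
      exact Subtype.ext (Subtype.ext h1)
  have hfixK : ∀ (K' : Subgroup Γ) (T : Set (Set V)) (g : K'),
      g ∈ fixingSubgroup K' T ↔ (g : Γ) ∈ fixingSubgroup Γ T := by
    intro K' T g
    rw [mem_fixingSubgroup_iff, mem_fixingSubgroup_iff]
    exact Iff.rfl
  -- the kernel
  have hN : P f.ker := by
    have hFN : ∀ (T : Set (Set V)) (g : f.ker),
        g ∈ fixingSubgroup f.ker T ↔ (g : Γ) ∈ fixingSubgroup Γ T ⊓ f.ker := by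
      intro T g
      rw [hfixK, Subgroup.mem_inf]
      exact ⟨fun h => ⟨h, g.2⟩, fun h => h.1⟩
    refine mem_of_complex hP hX hfin hd (hactK f.ker) k l
      (hstab f.ker 1 fun g hg => ?_) (fun T hfin hT hmono hfar => ?_)
      (fun T hfin hT hfar t ht => ?_)
    · rw [Subgroup.mem_comap, MonoidHom.mem_ker.1 hg]
      exact one_mem _
    · obtain ⟨i, hi, h⟩ := hchain T hfin hT hmono hfar
      refine ⟨i, hi, ?_⟩
      ext g
      rw [hFN, hFN, h]
    · exact CCC.mem_sup_of_sub hP' (hFN T) t (hnorm T hfin hT hfar t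
        (CCC.normal_iff_of_sub inf_le_right (hFN T) ht))
  refine hP.extension f hQ fun q => ?_
  obtain ⟨K', hK⟩ : ∃ K' : Subgroup Γ, K' = (Subgroup.zpowers q).comap f := ⟨_, rfl⟩
  rw [← hK]
  have hKm : ∀ g : K', ∃ n : ℤ, q ^ n = f (g : Γ) := by
    intro g
    have h1 : (g : Γ) ∈ (Subgroup.zpowers q).comap f := hK ▸ g.2
    exact Subgroup.mem_zpowers_iff.1 (Subgroup.mem_comap.1 h1)
  have hker : f.ker ≤ K' := by
    intro g hg
    rw [hK, Subgroup.mem_comap, MonoidHom.mem_ker.1 hg]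
    exact one_mem _
  by_cases hq : IsOfFinOrder q
  · -- elements of finite order
    have : Finite (Subgroup.zpowers q) := hq.finite_zpowers
    obtain ⟨F, hF⟩ : ∃ F : K' →* Subgroup.zpowers q, ∀ g : K',
        ((F g : Subgroup.zpowers q) : Q) = f g :=
      ⟨(f.comp K'.subtype).codRestrict (Subgroup.zpowers q) fun g => by
        obtain ⟨n, hn⟩ := hKm g
        exact Subgroup.mem_zpowers_iff.2 ⟨n, hn⟩, fun g => rfl⟩
    refine hP'.of_finite_range F ?_
    refine hP.of_injective ((K'.subtype.comp F.ker.subtype).codRestrict f.ker fun g => ?_) ?_ hN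
    · have h2 : F g = 1 := g.2
      have h3 := hF (g : K')
      rw [h2] at h3
      exact h3.symm
    · intro a b hab
      have h1 := congrArg (fun x : f.ker => (x : Γ)) hab
      exact Subtype.ext (Subtype.ext h1)
  · -- elements of infinite order: product with the line
    obtain ⟨ψ, hψ⟩ : ∃ ψ : Multiplicative ℤ →* Q, ∀ n, ψ n = q ^ n.toAdd :=
      ⟨zpowersHom Q q, fun n => rfl⟩
    have hinj : Function.Injective ψ := by
      rw [injective_iff_map_eq_one]
      intro n hn
      rw [hψ] at hn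
      have h1 : n.toAdd = 0 := by
        by_contra h2
        exact hq (isOfFinOrder_iff_zpow_eq_one.2 ⟨n.toAdd, h2, hn⟩)
      exact Multiplicative.toAdd.injective h1
    obtain ⟨χ, hχ⟩ : ∃ χ : K' →* Multiplicative ℤ, ∀ g : K', f (g : Γ) = ψ (χ g) := by
      let e : Multiplicative ℤ ≃* ψ.range := MonoidHom.ofInjective hinj
      let φ : K' →* ψ.range := (f.comp K'.subtype).codRestrict ψ.range fun g => by
        obtain ⟨n, hn⟩ := hKm g
        exact ⟨Multiplicative.ofAdd n, by rw [hψ]; exact hn⟩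
      refine ⟨e.symm.toMonoidHom.comp φ, fun g => ?_⟩
      have h1 : e (e.symm (φ g)) = φ g := e.apply_symm_apply _
      have h2 : ((e (e.symm (φ g)) : ψ.range) : Q) = f (g : Γ) := by
        rw [h1]
        rfl
      rw [← h2]
      rfl
    obtain ⟨o⟩ := ‹Nonempty X›
    obtain ⟨L, -, -, hL, -⟩ := EComplex.exists_lip hX hfin hd
    obtain ⟨Δ, hΔ⟩ := exists_discQ_line (Γ := K') hX K hfin hd (hactK K').co_smul
    have hface : ∀ C : faceAct (hactK K'), K.IsFace C.1 := by
      rintro ⟨_, x, rfl⟩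
      exact K.isFace_vs x
    have hfar : ∀ T : Set (faceAct (hactK K')),
        (∃ v ∈ T, ∃ w ∈ T, k ≤ dFace (hactK K') v w) →
        ∃ C ∈ (Subtype.val '' T : Set (Set V)), ∃ C' ∈ (Subtype.val '' T : Set (Set V)),
          ∀ u ∈ C, ∀ v ∈ C', (k : ℝ) ≤ dist (K.pos u) (K.pos v) := by
      rintro T ⟨C, hC, C', hC', hk⟩
      refine ⟨C.1, ⟨C, hC, rfl⟩, C'.1, ⟨C', hC', rfl⟩, fun u hu v hv' => ?_⟩
      have h0 : (0 : ℝ) ≤ sInf {r | ∃ u ∈ C.1, ∃ v ∈ C'.1, r = dist (K.pos u) (K.pos v)} := by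
        refine le_csInf ⟨_, u, hu, v, hv', rfl⟩ ?_
        rintro _ ⟨u, -, v, -, rfl⟩
        exact dist_nonneg
      have h1 : (k : ℝ) ≤ sInf {r | ∃ u ∈ C.1, ∃ v ∈ C'.1, r = dist (K.pos u) (K.pos v)} :=
        (Nat.cast_le.2 hk).trans (Nat.floor_le h0)
      refine h1.trans (csInf_le ⟨0, ?_⟩ ⟨u, hu, v, hv', rfl⟩)
      rintro _ ⟨u, -, v, -, rfl⟩
      exact dist_nonneg
    have hcube : ∀ T : Set (faceAct (hactK K')), ∀ C ∈ (Subtype.val '' T : Set (Set V)),
        K.IsFace C := by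
      rintro T _ ⟨D, -, rfl⟩
      exact hface D
    have hFK : ∀ (T : Set (faceAct (hactK K'))) (g : K'), g ∈ fixingSubgroup K' T ⊓ χ.ker ↔
        (g : Γ) ∈ fixingSubgroup Γ (Subtype.val '' T : Set (Set V)) ⊓ f.ker := by
      intro T g
      rw [Subgroup.mem_inf, Subgroup.mem_inf, MonoidHom.mem_ker, MonoidHom.mem_ker, hχ]
      refine and_congr ?_ ?_
      · rw [← hfixK]
        simp only [mem_fixingSubgroup_iff, Set.forall_mem_image]
        exact ⟨fun h C hC => congrArg Subtype.val (h C hC), fun h C hC => Subtype.ext (h hC)⟩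
      · constructor
        · intro h
          rw [h, map_one]
        · intro h
          exact hinj (by rw [h, map_one])
    refine mem_of_line (geo := geo) hP (bicomb_geo hX) (hactK K').isom
      (fun g x y t h0 h1 => geo_map hX ((hactK K').isom g) x y h0 h1)
      (EComplex.smallCovers hX hfin hd) (fun g u v => (hactK K').dF_smul g u.1 v.1)
      (toFaceG (hactK K') hL Δ) hΔ χ o k l (fun v => ?_)
      (fun T hfin hmono h => ?_) (fun T hfin h t ht => ?_)
    · have h1 : MulAction.stabilizer K' v = MulAction.stabilizer K' v.1 := by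
        ext g
        rw [MulAction.mem_stabilizer_iff, MulAction.mem_stabilizer_iff]
        exact ⟨fun h => congrArg Subtype.val h, fun h => Subtype.ext h⟩
      rw [h1]
      exact stab_face hP' (hstab K' q hK.le) (hface v)
    · obtain ⟨i, hi, h1⟩ := hchain (fun i => Subtype.val '' T i) (fun i => (hfin i).image _)
        (fun i => hcube (T i)) (fun i => Set.image_mono (hmono i)) (hfar _ h)
      refine ⟨i, hi, ?_⟩
      ext g
      rw [hFK, hFK, h1]
    · exact CCC.mem_sup_of_sub hP' (hFK T) t (hnorm _ (hfin.image _) (hcube T) (hfar T h) t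
        (CCC.normal_iff_of_sub (inf_le_right.trans hker) (hFK T) ht))

end Pool.Agent.TD
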