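import Pool.Agent.Lib.MP_98022b_nd.Pcc
import Pool.Agent.Lib.MP_98022b_tl.Zigzag

/-!
# Random thresholds for functions with different partitions
-/

set_option autoImplicit false

open Set

namespace Pool.Agent.ND

/-- The number of the pieces can be increased. -/
theorem Pcc.pad {P P' : ℕ} {T L : ℝ} {t : ℕ → ℝ} {f : ℝ → ℝ} (h : Pcc P T L t f) (hP : P ≤ P') :
    ∃ t', Pcc P' T L t' f := by
  refine ⟨fun i => if i ≤ P then t i else T, fun i hi => ?_, ?_, ?_, h.lip, fun i hi => ?_⟩
  · rcases Nat.lt_or_ge i P with h1 | h1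
    · have e1 : i ≤ P := h1.le
      have e2 : i + 1 ≤ P := h1
      simp only [e1, e2, if_true]
      exact h.mono i h1
    · have e2 : ¬ i + 1 ≤ P := by omega
      simp only [e2, if_false]
      split_ifs with h2
      · have e1 : i = P := by omega
        rw [e1, h.tP]
      · exact le_rfl
  · simp [h.t0]
  · rcases eq_or_lt_of_le hP with h1 | h1
    · simp [← h1, h.tP]
    · have e2 : ¬ P' ≤ P := by omega
      simp only [e2, if_false]
  · rcases Nat.lt_or_ge i P with h1 | h1
    · have e1 : i ≤ P := h1.le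
      have e2 : i + 1 ≤ P := h1
      simp only [e1, e2, if_true]
      exact h.conc i h1
    · have e2 : ¬ i + 1 ≤ P := by omega
      simp only [e2, if_false]
      have h3 : (if i ≤ P then t i else T) = T := by
        split_ifs with h2
        · have e1 : i = P := by omega
          rw [e1, h.tP]
        · rfl
      rw [h3, Icc_self]
      exact ⟨convex_singleton T, fun x hx y hy a b _ _ hab => by
        rw [mem_singleton_iff.1 hx, mem_singleton_iff.1 hy, ← add_smul, ← add_smul, hab, one_smul,
          one_smul]⟩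

/-- A constant function. -/
theorem pcc_const {P : ℕ} (hP : 0 < P) {T L : ℝ} (hT : 0 ≤ T) (hL : 0 ≤ L) (c : ℝ) :
    ∃ t, Pcc P T L t fun _ => c := by
  have h : Pcc 1 T L (fun i => if i = 0 then 0 else T) fun _ => c := by
    refine ⟨fun i hi => ?_, by simp, by simp, fun s _ s' _ => ?_, fun i hi => ?_⟩
    · have e : i = 0 := by omega
      subst e
      simpa using hT
    · rw [sub_self, abs_zero]
      positivity
    · exact concaveOn_const _ (convex_Icc _ _)
  exact h.pad hP

/-- Slower motion. -/
theorem Pcc.slow {P : ℕ} {T L : ℝ} {t : ℕ → ℝ} {f : ℝ → ℝ} {v : ℝ} (h : Pcc P (v * T) L t f)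
    (hv : 0 < v) (hv1 : v ≤ 1) (hL : 0 ≤ L) : Pcc P T L (fun i => t i / v) fun s => f (v * s) := by
  have hmem : ∀ s ∈ Icc 0 T, v * s ∈ Icc 0 (v * T) := fun s hs =>
    ⟨mul_nonneg hv.le hs.1, mul_le_mul_of_nonneg_left hs.2 hv.le⟩
  refine ⟨fun i hi => div_le_div_of_nonneg_right (h.mono i hi) hv.le, by simp [h.t0], ?_,
    fun s hs s' hs' => ?_, fun i hi => ?_⟩
  · show t P / v = T
    rw [h.tP]
    field_simp
  · refine (h.lip _ (hmem s hs) _ (hmem s' hs')).trans (mul_le_mul_of_nonneg_left ?_ hL)
    rw [← mul_sub, abs_mul, abs_of_pos hv]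
    have := mul_le_mul_of_nonneg_right hv1 (abs_nonneg (s - s'))
    linarith
  · have h1 := h.conc i hi
    refine ⟨convex_Icc _ _, fun x hx y hy a b ha hb hab => ?_⟩
    have hx' : v * x ∈ Icc (t i) (t (i + 1)) := by
      constructor
      · have := (div_le_iff₀ hv).1 hx.1
        linarith
      · have := (le_div_iff₀ hv).1 hx.2
        linarith
    have hy' : v * y ∈ Icc (t i) (t (i + 1)) := by
      constructor
      · have := (div_le_iff₀ hv).1 hy.1
        linarith
      · have := (le_div_iff₀ hv).1 hy.2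
        linarith
    have h2 := h1.2 hx' hy' ha hb hab
    have e : v * (a • x + b • y) = a • (v * x) + b • (v * y) := by
      simp only [smul_eq_mul]
      ring
    show _ ≤ f (v * (a • x + b • y))
    rw [e]
    exact h2

open Pool.Agent.TD in
/-- The distance to the integers along an affine path. -/
theorem pcc_zz {n : ℕ} {a w : ℝ} (hw : |w| ≤ 1) : ∃ t, Pcc (n + 2) n 1 t fun s => zz (a + w * s) := by
  have hn0 : (0 : ℝ) ≤ n := Nat.cast_nonneg n
  have hlip : ∀ s s' : ℝ, |zz (a + w * s) - zz (a + w * s')| ≤ 1 * |s - s'| := by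
    intro s s'
    refine (zz_lip _ _).trans ?_
    have e : a + w * s - (a + w * s') = w * (s - s') := by ring
    rw [e, abs_mul]
    exact mul_le_mul_of_nonneg_right hw (abs_nonneg _)
  -- concave on the pieces
  have hconc : ∀ (m : ℤ) (x y : ℝ), (∀ s ∈ Icc x y, a + w * s ∈ Icc (m : ℝ) (m + 1)) →
      ConcaveOn ℝ (Icc x y) fun s => zz (a + w * s) := by
    intro m x y h
    refine ⟨convex_Icc _ _, fun s hs s' hs' p q hp hq hpq => ?_⟩
    have h1 := (concave_zz m).2 (h s hs) (h s' hs') hp hq hpq
    have e : a + w * (p • s + q • s') = p • (a + w * s) + q • (a + w * s') := by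
      simp only [smul_eq_mul]
      have : a = (p + q) * a := by rw [hpq, one_mul]
      linear_combination this
    show _ ≤ zz (a + w * (p • s + q • s'))
    rw [e]
    exact h1
  rcases lt_trichotomy w 0 with hw0 | hw0 | hw0
  · -- decreasing
    have hw' : -1 ≤ w := (abs_le.1 hw).1
    obtain ⟨c, hc⟩ : ∃ c : ℤ, c = ⌊a⌋ := ⟨_, rfl⟩
    have hc1 : (c : ℝ) ≤ a := hc ▸ Int.floor_le a
    have hc2 : a < c + 1 := hc ▸ Int.lt_floor_add_one a
    obtain ⟨τ, hτ⟩ : ∃ τ : ℕ → ℝ, ∀ i, τ i = (c + 1 - i - a) / w := ⟨_, fun _ => rfl⟩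
    have hτm : ∀ i, τ i ≤ τ (i + 1) := by
      intro i
      rw [hτ, hτ]
      refine div_le_div_of_nonpos_of_le hw0.le ?_
      push_cast
      linarith
    have hτ0 : τ 0 ≤ 0 := by
      rw [hτ]
      refine div_nonpos_of_nonneg_of_nonpos ?_ hw0.le
      push_cast
      linarith
    have hτn : (n : ℝ) ≤ τ (n + 2) := by
      rw [hτ, le_div_iff_of_neg hw0]
      push_cast
      nlinarith
    refine ⟨fun i => max 0 (min n (τ i)), fun i hi => max_le_max le_rfl (min_le_min le_rfl (hτm i)),
      ?_, ?_, fun s _ s' _ => hlip s s', fun i hi => ?_⟩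
    · show max 0 (min (n : ℝ) (τ 0)) = 0
      rw [min_eq_right (hτ0.trans hn0), max_eq_left hτ0]
    · show max 0 (min (n : ℝ) (τ (n + 2))) = n
      rw [min_eq_left hτn, max_eq_right hn0]
    · rcases le_or_gt (τ (i + 1)) 0 with h1 | h1
      · -- a point
        have e1 : max 0 (min (n : ℝ) (τ (i + 1))) = 0 := max_eq_left ((min_le_right _ _).trans h1)
        have e2 : max 0 (min (n : ℝ) (τ i)) = 0 :=
          max_eq_left ((min_le_right _ _).trans ((hτm i).trans h1))
        rw [e1, e2, Icc_self]
        exact ⟨convex_singleton _, fun x hx y hy p q _ _ hpq => by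
          rw [mem_singleton_iff.1 hx, mem_singleton_iff.1 hy, ← add_smul, ← add_smul, hpq, one_smul,
            one_smul]⟩
      · rcases lt_or_ge (n : ℝ) (τ i) with h2 | h2
        · have e1 : max 0 (min (n : ℝ) (τ (i + 1))) = n := by
            rw [min_eq_left (h2.le.trans (hτm i)), max_eq_right hn0]
          have e2 : max 0 (min (n : ℝ) (τ i)) = n := by
            rw [min_eq_left h2.le, max_eq_right hn0]
          rw [e1, e2, Icc_self]
          exact ⟨convex_singleton _, fun x hx y hy p q _ _ hpq => by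
            rw [mem_singleton_iff.1 hx, mem_singleton_iff.1 hy, ← add_smul, ← add_smul, hpq,
              one_smul, one_smul]⟩
        · refine hconc (c - i) _ _ fun s hs => ?_
          have h3 : τ i ≤ s := by
            have := hs.1
            refine le_trans ?_ this
            rw [min_eq_right h2]
            exact le_max_right _ _
          have h4 : s ≤ τ (i + 1) := by
            refine hs.2.trans ?_
            exact max_le h1.le (min_le_right _ _)
          rw [hτ, div_le_iff_of_neg hw0] at h3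
          rw [hτ, le_div_iff_of_neg hw0] at h4
          push_cast at h3 h4 ⊢
          constructor <;> linarith
  · -- constant
    subst hw0
    have h := pcc_const (P := n + 2) (by omega) hn0 zero_le_one (zz a)
    obtain ⟨t, ht⟩ := h
    refine ⟨t, ?_⟩
    have e : (fun s : ℝ => zz (a + 0 * s)) = fun _ => zz a := by
      funext s
      rw [zero_mul, add_zero]
    rw [e]
    exact ht
  · -- increasing
    have hw' : w ≤ 1 := (abs_le.1 hw).2
    obtain ⟨c, hc⟩ : ∃ c : ℤ, c = ⌊a⌋ := ⟨_, rfl⟩
    have hc1 : (c : ℝ) ≤ a := hc ▸ Int.floor_le a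
    have hc2 : a < c + 1 := hc ▸ Int.lt_floor_add_one a
    obtain ⟨τ, hτ⟩ : ∃ τ : ℕ → ℝ, ∀ i, τ i = (c + i - a) / w := ⟨_, fun _ => rfl⟩
    have hτm : ∀ i, τ i ≤ τ (i + 1) := by
      intro i
      rw [hτ, hτ]
      refine div_le_div_of_nonneg_right ?_ hw0.le
      push_cast
      linarith
    have hτ0 : τ 0 ≤ 0 := by
      rw [hτ]
      refine div_nonpos_of_nonpos_of_nonneg ?_ hw0.le
      push_cast
      linarith
    have hτn : (n : ℝ) ≤ τ (n + 2) := by
      rw [hτ, le_div_iff₀ hw0]
      push_cast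
      nlinarith
    refine ⟨fun i => max 0 (min n (τ i)), fun i hi => max_le_max le_rfl (min_le_min le_rfl (hτm i)),
      ?_, ?_, fun s _ s' _ => hlip s s', fun i hi => ?_⟩
    · show max 0 (min (n : ℝ) (τ 0)) = 0
      rw [min_eq_right (hτ0.trans hn0), max_eq_left hτ0]
    · show max 0 (min (n : ℝ) (τ (n + 2))) = n
      rw [min_eq_left hτn, max_eq_right hn0]
    · rcases le_or_gt (τ (i + 1)) 0 with h1 | h1
      · have e1 : max 0 (min (n : ℝ) (τ (i + 1))) = 0 := max_eq_left ((min_le_right _ _).trans h1)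
        have e2 : max 0 (min (n : ℝ) (τ i)) = 0 :=
          max_eq_left ((min_le_right _ _).trans ((hτm i).trans h1))
        rw [e1, e2, Icc_self]
        exact ⟨convex_singleton _, fun x hx y hy p q _ _ hpq => by
          rw [mem_singleton_iff.1 hx, mem_singleton_iff.1 hy, ← add_smul, ← add_smul, hpq, one_smul,
            one_smul]⟩
      · rcases lt_or_ge (n : ℝ) (τ i) with h2 | h2
        · have e1 : max 0 (min (n : ℝ) (τ (i + 1))) = n := by
            rw [min_eq_left (h2.le.trans (hτm i)), max_eq_right hn0]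
          have e2 : max 0 (min (n : ℝ) (τ i)) = n := by
            rw [min_eq_left h2.le, max_eq_right hn0]
          rw [e1, e2, Icc_self]
          exact ⟨convex_singleton _, fun x hx y hy p q _ _ hpq => by
            rw [mem_singleton_iff.1 hx, mem_singleton_iff.1 hy, ← add_smul, ← add_smul, hpq,
              one_smul, one_smul]⟩
        · refine hconc (c + i) _ _ fun s hs => ?_
          have h3 : τ i ≤ s := by
            have := hs.1
            refine le_trans ?_ this
            rw [min_eq_right h2]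
            exact le_max_right _ _
          have h4 : s ≤ τ (i + 1) := by
            refine hs.2.trans ?_
            exact max_le h1.le (min_le_right _ _)
          rw [hτ, div_le_iff₀ hw0] at h3
          rw [hτ, le_div_iff₀ hw0] at h4
          push_cast at h3 h4 ⊢
          constructor <;> linarith

theorem bad_countK {n P N : ℕ} {T L : ℝ} {t : Fin n → ℕ → ℝ} {f : Fin n → ℝ → ℝ}
    (h : ∀ k, Pcc P T L (t k) (f k)) (hP : 0 < P) {δ e w : ℝ} (hδ : 0 < δ) (he : 0 ≤ e) (hL : 0 ≤ L)
    (hw1 : e + 5 * L * δ ≤ w) (hw2 : 2 * e * T ≤ (w - e) * δ) (rv : Fin n → Fin N → ℝ)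
    (sep : ∀ k j j', j ≠ j' → 2 * w ≤ |rv k j - rv k j'|) :
    ∃ B : Finset (Fin n → Fin N), B.card * N ≤ 2 * (n + 1) ^ 2 * (P + 1) * N ^ n ∧
      ∀ v, v ∉ B → Good T δ e f fun k => rv k (v k) := by
  classical
  have hw1' : e + 4 * L * δ ≤ w := by
    have : 0 ≤ L * δ := by positivity
    linarith
  choose A hAc hA using fun k => single (h k) hP hδ he hL hw1' hw2
  set Sg : Fin n → Finset (Fin N) := fun k => Finset.univ.filter fun x : Fin N =>
    ∃ a ∈ A k, |rv k x - a| < w with hSg
  have hgood : ∀ k, ∀ x, x ∉ Sg k → ∀ s ∈ Icc 0 T, ∀ s' ∈ Icc 0 T, |f k s - rv k x| < e →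
      |f k s' - rv k x| < e → δ < s' - s → s' - s < 4 * δ → False := by
    intro k x hx
    simp only [hSg, Finset.mem_filter, Finset.mem_univ, true_and, not_exists, not_and,
      not_lt] at hx
    exact hA k _ hx
  choose! C hCc hCT hC using fun (k : Fin n) (x : Fin N) (hx : x ∉ Sg k) =>
    double (h k) hP hδ (hgood k x hx)
  set Sd : Fin n → Fin n → Fin N → Finset (Fin N) := fun k k' x =>
    if x ∈ Sg k then ∅ else Finset.univ.filter fun y : Fin N =>
      ∃ a ∈ (C k x).image (f k'), |rv k' y - a| < w with hSd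
  have hSdc : ∀ k k' x, (Sd k k' x).card ≤ 2 * P := by
    intro k k' x
    simp only [hSd]
    split_ifs with hx
    · simp
    · exact ((kill_count _ (sep k') _).trans Finset.card_image_le).trans (hCc k x hx)
  set B1 : Fin n → Finset (Fin n → Fin N) := fun k => Finset.univ.filter fun v => v k ∈ Sg k
    with hB1
  set B2 : Fin n × Fin n → Finset (Fin n → Fin N) := fun p =>
    if p.1 = p.2 then ∅ else Finset.univ.filter fun v => v p.2 ∈ Sd p.1 p.2 (v p.1) with hB2
  have hB1c : ∀ k, (B1 k).card * N ≤ (2 * P + 1) * N ^ n := by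
    intro k
    refine count_fiber (B1 k) k fun v => ?_
    have : (Finset.univ.filter fun x : Fin N => Function.update v k x ∈ B1 k) = Sg k := by
      ext x; simp [hB1]
    rw [this]
    exact (kill_count _ (sep k) _).trans (hAc k)
  have hB2c : ∀ p, (B2 p).card * N ≤ (2 * P) * N ^ n := by
    rintro ⟨k, k'⟩
    by_cases hkk : k = k'
    · simp [hB2, hkk]
    · refine count_fiber (B2 (k, k')) k' fun v => ?_
      have : (Finset.univ.filter fun x : Fin N => Function.update v k' x ∈ B2 (k, k')) =
          Sd k k' (v k) := by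
        ext x
        simp [hB2, hkk, Function.update_of_ne]
      rw [this]
      exact hSdc _ _ _
  refine ⟨Finset.univ.biUnion B1 ∪ Finset.univ.biUnion B2, ?_, ?_⟩
  · have h1 : (Finset.univ.biUnion B1).card * N ≤ n * ((2 * P + 1) * N ^ n) := by
      refine (Nat.mul_le_mul_right _ Finset.card_biUnion_le).trans ?_
      rw [Finset.sum_mul]
      refine (Finset.sum_le_sum fun k _ => hB1c k).trans ?_
      simp
    have h2 : (Finset.univ.biUnion B2).card * N ≤ n * n * ((2 * P) * N ^ n) := by
      refine (Nat.mul_le_mul_right _ Finset.card_biUnion_le).trans ?_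
      rw [Finset.sum_mul]
      refine (Finset.sum_le_sum fun k _ => hB2c k).trans ?_
      simp
    calc (Finset.univ.biUnion B1 ∪ Finset.univ.biUnion B2).card * N ≤
        ((Finset.univ.biUnion B1).card + (Finset.univ.biUnion B2).card) * N :=
          Nat.mul_le_mul_right _ (Finset.card_union_le _ _)
      _ = (Finset.univ.biUnion B1).card * N + (Finset.univ.biUnion B2).card * N := by ring
      _ ≤ n * ((2 * P + 1) * N ^ n) + n * n * ((2 * P) * N ^ n) := by omega
      _ = (n * (2 * P + 1) + n * n * (2 * P)) * N ^ n := by ring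
      _ ≤ 2 * (n + 1) ^ 2 * (P + 1) * N ^ n := by
          refine Nat.mul_le_mul_right _ ?_
          nlinarith [Nat.zero_le n, Nat.zero_le P, Nat.zero_le (n * P), Nat.zero_le (n * n * P)]
  · intro v hv
    simp only [Finset.mem_union, Finset.mem_biUnion, Finset.mem_univ, true_and, not_or,
      not_exists] at hv
    obtain ⟨hv1, hv2⟩ := hv
    have hv1' : ∀ k, v k ∉ Sg k := fun k => by
      have := hv1 k
      simpa [hB1] using this
    have key : ∀ s ∈ Icc 0 T, ∀ s' ∈ Icc 0 T, ∀ k k', |f k s - rv k (v k)| < e →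
        |f k' s' - rv k' (v k')| < e → ¬ (δ < |s - s'| ∧ |s - s'| < 4 * δ) := by
      intro s hs s' hs' k k' h1 h2 ⟨h3, h4⟩
      by_cases hkk : k = k'
      · subst hkk
        rcases le_total s s' with hss | hss
        · rw [abs_sub_comm, abs_of_nonneg (by linarith)] at h3 h4
          exact hgood k _ (hv1' k) s hs s' hs' h1 h2 h3 h4
        · rw [abs_of_nonneg (by linarith)] at h3 h4
          exact hgood k _ (hv1' k) s' hs' s hs h2 h1 h3 h4
      · have h5 := hv2 (k, k')
        simp only [hB2, if_neg hkk, Finset.mem_filter, Finset.mem_univ, true_and] at h5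
        simp only [hSd, if_neg (hv1' k), Finset.mem_filter, Finset.mem_univ, true_and,
          not_exists, not_and, not_lt] at h5
        obtain ⟨c, hc, hsc⟩ := hC k (v k) (hv1' k) s hs h1
        have h6 := h5 (f k' c) (Finset.mem_image_of_mem _ hc)
        have hcT := hCT k (v k) (hv1' k) c hc
        have h7 := (h k').lip c hcT s' hs'
        have h8 : |c - s'| ≤ 5 * δ := by
          have := abs_add_le (c - s) (s - s')
          have h9 : c - s + (s - s') = c - s' := by ring
          rw [h9, abs_sub_comm c s] at this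
          linarith
        have h9 : L * |c - s'| ≤ L * (5 * δ) := mul_le_mul_of_nonneg_left h8 hL
        have h10 : |rv k' (v k') - f k' c| ≤ |f k' s' - rv k' (v k')| + |f k' c - f k' s'| := by
          rw [abs_sub_comm (f k' s') _, abs_sub_comm (f k' c) _]
          have := abs_add_le (rv k' (v k') - f k' s') (f k' s' - f k' c)
          have h6 : rv k' (v k') - f k' s' + (f k' s' - f k' c) = rv k' (v k') - f k' c := by ring
          rw [h6] at this; exact this
        linarith
    intro s hs s' hs' k k' h1 h2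
    have := key s hs s' hs' k k' h1 h2
    by_contra hcon
    push Not at hcon
    exact this ⟨hcon.1, hcon.2⟩

/-- The abstract index lemma: finitely many threshold vectors which are good for all members of a
family with few classes. -/
theorem index_abstractK {Ω 𝒞 : Type} [Fintype 𝒞] {n P N K : ℕ} {T L : ℝ} (t : Ω → Fin n → ℕ → ℝ)
    (f : Ω → Fin n → ℝ → ℝ) (cls : Ω → 𝒞)
    (h : ∀ ω k, Pcc P T L (t ω k) (f ω k)) (hP : 0 < P) {δ e w : ℝ} (hδ : 0 < δ) (he : 0 ≤ e)
    (hL : 0 ≤ L) (hw1 : 2 * e + 5 * L * δ ≤ w) (hw2 : 4 * e * T ≤ (w - 2 * e) * δ)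
    (rv : Fin n → Fin N → ℝ) (sep : ∀ k j j', j ≠ j' → 2 * w ≤ |rv k j - rv k j'|)
    (hclose : ∀ ω ω', cls ω = cls ω' → ∀ k, ∀ s ∈ Icc 0 T, |f ω k s - f ω' k s| ≤ e)
    (hN : 0 < N) (hcard : Fintype.card 𝒞 * (2 * (n + 1) ^ 2 * (P + 1)) ^ K < N ^ K) :
    ∃ v : Fin K → Fin n → Fin N, ∀ ω, ∃ j, Good T δ e (f ω) fun k => rv k (v j k) := by
  classical
  have hbc : ∀ ω, ∃ B : Finset (Fin n → Fin N), B.card * N ≤
      2 * (n + 1) ^ 2 * (P + 1) * N ^ n ∧ ∀ v, v ∉ B → Good T δ (2 * e) (f ω)
        fun k => rv k (v k) := fun ω =>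
    bad_countK (h ω) hP hδ (by linarith) hL hw1 (by linarith) rv sep
  choose B hBc hB using hbc
  set bad : 𝒞 → Finset (Fin n → Fin N) := fun c =>
    if hc : ∃ ω, cls ω = c then B hc.choose else ∅ with hbad
  have hR : Fintype.card (Fin n → Fin N) = N ^ n := by simp
  obtain ⟨v, hv⟩ := exists_tuple (I := 𝒞) (R := Fin n → Fin N) (N := N)
    (q := 2 * (n + 1) ^ 2 * (P + 1)) (K := K) bad (by
      intro c
      rw [hR]
      simp only [hbad]
      split_ifs with hc
      · exact hBc _
      · simp) (by rw [hR]; exact Nat.pow_pos hN) hcard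
  refine ⟨v, fun ω => ?_⟩
  obtain ⟨j, hj⟩ := hv (cls ω)
  have hc : ∃ ω', cls ω' = cls ω := ⟨ω, rfl⟩
  simp only [hbad, dif_pos hc] at hj
  have hg := hB _ _ hj
  refine ⟨j, fun s hs s' hs' k k' h1 h2 => ?_⟩
  refine hg s hs s' hs' k k' ?_ ?_
  · have h3 := hclose _ _ hc.choose_spec k s hs
    have h4 := abs_add_le (f hc.choose k s - f ω k s) (f ω k s - rv k (v j k))
    have h5 : f hc.choose k s - f ω k s + (f ω k s - rv k (v j k)) =
      f hc.choose k s - rv k (v j k) := by ring
    rw [h5] at h4
    linarith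
  · have h3 := hclose _ _ hc.choose_spec k' s' hs'
    have h4 := abs_add_le (f hc.choose k' s' - f ω k' s') (f ω k' s' - rv k' (v j k'))
    have h5 : f hc.choose k' s' - f ω k' s' + (f ω k' s' - rv k' (v j k')) =
      f hc.choose k' s' - rv k' (v j k') := by ring
    rw [h5] at h4
    linarith

end Pool.Agent.ND
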