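import Pool.Agent.Lib.MP_98022b_nd.Disc
import Pool.Agent.Lib.MP_98022b_tl.PccK
import Pool.Agent.Lib.MP_98022b_tl.LineDisc

/-!
# The index property for the product of a Euclidean complex with the line
-/

set_option autoImplicit false

open Set Filter Topology

namespace Pool.Agent.ND

open Pool.Agent.TD Pool.Agent.GLN

theorem Pcc.monoL {P : ℕ} {T L L' : ℝ} {t : ℕ → ℝ} {f : ℝ → ℝ} (h : Pcc P T L t f)
    (hL : L ≤ L') : Pcc P T L' t f :=
  ⟨h.mono, h.t0, h.tP, fun s hs s' hs' => (h.lip s hs s' hs').trans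
    (mul_le_mul_of_nonneg_right hL (abs_nonneg _)), h.conc⟩

/-- Rounded numbers. -/
noncomputable def rnd (R m : ℕ) (x : ℝ) : Fin (m + 1) := ⟨min ⌊x * R⌋₊ m, by omega⟩

theorem rnd_close {R m : ℕ} {x y : ℝ} (hR : 0 < R) (hx : 0 ≤ x) (hy : 0 ≤ y) (hxm : x * R ≤ m)
    (hym : y * R ≤ m) (h : rnd R m x = rnd R m y) : |x - y| ≤ 1 / R := by
  have hR0 : (0 : ℝ) < R := by exact_mod_cast hR
  have h1 : min ⌊x * R⌋₊ m = min ⌊y * R⌋₊ m := congrArg Fin.val h
  have h2 : ⌊x * R⌋₊ ≤ m := by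
    have := Nat.floor_le_floor hxm
    rwa [Nat.floor_natCast] at this
  have h3 : ⌊y * R⌋₊ ≤ m := by
    have := Nat.floor_le_floor hym
    rwa [Nat.floor_natCast] at this
  rw [min_eq_left h2, min_eq_left h3] at h1
  have e1 := Nat.floor_le (mul_nonneg hx hR0.le)
  have e2 := Nat.lt_floor_add_one (x * R)
  have e3 := Nat.floor_le (mul_nonneg hy hR0.le)
  have e4 := Nat.lt_floor_add_one (y * R)
  rw [h1] at e1 e2
  have h4 : |(x - y) * R| ≤ 1 := by
    rw [abs_le]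
    constructor <;> linarith
  rw [abs_mul, abs_of_pos hR0] at h4
  rw [le_div_iff₀ hR0]
  exact h4

theorem zz_close {a a' w w' s n c : ℝ} (hs : 0 ≤ s) (hsn : s ≤ n)
    (ha : |Int.fract a - Int.fract a'| ≤ c) (hw : |w - w'| ≤ c) (hc : 0 ≤ c) :
    |zz (a + w * s) - zz (a' + w' * s)| ≤ c * (1 + n) := by
  have h1 : zz (a + w * s) = zz (Int.fract a + w * s) := by
    have e : a + w * s = Int.fract a + w * s + (⌊a⌋ : ℤ) := by
      have := Int.fract_add_floor a
      linarith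
    rw [e, zz_add_int]
  have h2 : zz (a' + w' * s) = zz (Int.fract a' + w' * s) := by
    have e : a' + w' * s = Int.fract a' + w' * s + (⌊a'⌋ : ℤ) := by
      have := Int.fract_add_floor a'
      linarith
    rw [e, zz_add_int]
  rw [h1, h2]
  refine (zz_lip _ _).trans ?_
  have e : Int.fract a + w * s - (Int.fract a' + w' * s) =
      (Int.fract a - Int.fract a') + (w - w') * s := by ring
  rw [e]
  refine (abs_add_le _ _).trans ?_
  rw [abs_mul, abs_of_nonneg hs]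
  have h3 : |w - w'| * s ≤ c * n := mul_le_mul hw hsn hs hc
  linarith

variable {X V : Type} [MetricSpace X] {K : EComplex X V}

/-- A geodesic with a speed at most `1` and an affine path in the line. -/
structure Pth (X : Type) [MetricSpace X] (n : ℕ) where
  x : X
  y : X
  v : ℝ
  a : ℝ
  w : ℝ
  v0 : 0 ≤ v
  v1 : v ≤ 1
  w1 : |w| ≤ 1
  le : v * (5 * n) ≤ dist x y

/-- The functions of the time which define the states. -/
noncomputable def fPth (K : EComplex X V) (geo : X → X → ℝ → X) (d : ℕ) {n : ℕ} (ω : Pth X n)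
    (k : Fin (d + 1)) (s : ℝ) : ℝ :=
  if (k : ℕ) < d then tail ((k : ℕ) + 1) (K.co (endPt geo ω.x ω.y (ω.v * s)))
  else zz (ω.a + ω.w * s)

theorem exists_window {geo : X → X → ℝ → X} {M : ℕ}
    (hw : ∀ (x y : X) (n : ℕ) (a b : ℝ), 0 ≤ a → a ≤ b → b ≤ dist x y → b - a ≤ n →
      ∃ w : Win K (M * (n + 1)) (b - a), ∀ s, w.γ s = endPt geo x y (a + s))
    {n : ℕ} (ω : Pth X n) {T : ℝ} (hT0 : 0 ≤ T) (hT : T ≤ ω.v * (5 * n)) :
    ∃ w : Win K (M * (5 * n + 1)) T, ∀ s, w.γ s = endPt geo ω.x ω.y s := by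
  have h5 : ω.v * (5 * n) ≤ 5 * n := by
    have := mul_le_mul_of_nonneg_right ω.v1 (by positivity : (0 : ℝ) ≤ 5 * n)
    linarith
  have h1 := hw ω.x ω.y (5 * n) 0 T le_rfl hT0 (hT.trans ω.le) (by push_cast; linarith)
  obtain ⟨w, hw⟩ := Win.cast h1 (sub_zero T)
  exact ⟨w, fun s => by rw [hw, zero_add]⟩

theorem pcc_fPth {geo : X → X → ℝ → X} {M : ℕ} (hM : 0 < M)
    (hw : ∀ (x y : X) (n : ℕ) (a b : ℝ), 0 ≤ a → a ≤ b → b ≤ dist x y → b - a ≤ n →
      ∃ w : Win K (M * (n + 1)) (b - a), ∀ s, w.γ s = endPt geo x y (a + s))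
    {L : ℝ} (hL : 0 < L) (hlip : ∀ x y v, |K.co x v - K.co y v| ≤ L * dist x y) {d Lc : ℕ}
    (hLc : d * L ≤ Lc) (hLc1 : 1 ≤ Lc) {n : ℕ} (ω : Pth X n) (k : Fin (d + 1)) :
    ∃ t, Pcc ((M + 2) * (5 * n + 1)) (5 * n) Lc t (fPth K geo d ω k) := by
  have hLc0 : (1 : ℝ) ≤ Lc := by exact_mod_cast hLc1
  have hn0 : (0 : ℝ) ≤ 5 * n := by positivity
  by_cases hk : (k : ℕ) < d
  · have hf : fPth K geo d ω k =
        fun s => tail ((k : ℕ) + 1) (K.co (endPt geo ω.x ω.y (ω.v * s))) := by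
      funext s
      exact if_pos hk
    rw [hf]
    rcases ω.v0.eq_or_lt with hv | hv
    · have e : (fun s : ℝ => tail ((k : ℕ) + 1) (K.co (endPt geo ω.x ω.y (ω.v * s)))) =
          fun _ => tail ((k : ℕ) + 1) (K.co (endPt geo ω.x ω.y 0)) := by
        funext s
        rw [← hv, zero_mul]
      rw [e]
      exact pcc_const (by positivity) hn0 (by linarith) _
    · obtain ⟨w, hwγ⟩ := exists_window hw ω (mul_nonneg ω.v0 hn0) le_rfl
      have h1 := w.pcc hL.le hlip (k := (k : ℕ) + 1) (d := d) hk hLc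
      have e : (fun s : ℝ => tail ((k : ℕ) + 1) (K.co (w.γ s))) =
          fun s => tail ((k : ℕ) + 1) (K.co (endPt geo ω.x ω.y s)) := by
        funext s
        rw [hwγ]
      rw [e] at h1
      exact (h1.slow hv ω.v1 (by linarith)).pad (Nat.mul_le_mul_right _ (by omega))
  · have hf : fPth K geo d ω k = fun s => zz (ω.a + ω.w * s) := by
      funext s
      exact if_neg hk
    rw [hf]
    obtain ⟨t, ht⟩ := pcc_zz (n := 5 * n) (a := ω.a) ω.w1
    push_cast at ht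
    refine (ht.monoL hLc0).pad ?_
    nlinarith

/-- The index property. -/
theorem pairsL_of_win {geo : X → X → ℝ → X} (hfew : FewWin K geo) {L : ℝ} (hL : 0 < L)
    (hlip : ∀ x y v, |K.co x v - K.co y v| ≤ L * dist x y) {d : ℕ}
    (hd : ∀ s ∈ K.faces, s.card ≤ d + 1) (hl : K.lens.Finite) {Lc : ℕ}
    (hLc : d * L ≤ Lc) (hLc1 : 1 ≤ Lc)
    (hspeed : ∀ (x y : X) (s t : ℝ), 0 ≤ s → s ≤ dist x y → 0 ≤ t → t ≤ dist x y →
      dist (endPt geo x y s) (endPt geo x y t) ≤ |s - t|) :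
    ∃ m A : ℕ, ∀ n : ℕ, 2 ≤ n → ∃ (r : Fin m → Thr × Rho) (δ : Fin m → ℝ) (ε : ℝ), 0 < ε ∧
      1 / 2 ^ (n ^ A) ≤ ε ∧ (∀ k, ε ≤ δ k ∧ δ k ≤ 1 / 100) ∧
      ∀ (x y : X) (v a w : ℝ), 0 ≤ v → v ≤ 1 → |w| ≤ 1 → v * (5 * n) ≤ dist x y → ∃ k,
        ∀ s ∈ Icc 0 (5 * (n : ℝ)), ∀ s' ∈ Icc 0 (5 * (n : ℝ)),
          ¬ (farP K Lc d (r k).1.1 ε (endPt geo x y (v * s)) ∧ ε ≤ |zz (a + w * s) - (r k).2.1|) →
          ¬ (farP K Lc d (r k).1.1 ε (endPt geo x y (v * s')) ∧
            ε ≤ |zz (a + w * s') - (r k).2.1|) →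
          |s - s'| ≤ δ k ∨ 4 * δ k ≤ |s - s'| := by
  classical
  obtain ⟨C1, hC1⟩ := win_classes K d hd hl
  obtain ⟨C2, hC2⟩ := win_close K d hd hl
  obtain ⟨M, hM, hw⟩ := hfew
  obtain ⟨C, hC⟩ : ∃ C : ℕ, C = C1 + 4 * C2 + 8 := ⟨_, rfl⟩
  obtain ⟨d', hd'⟩ : ∃ d' : ℕ, d' = 2 * d + 3 := ⟨_, rfl⟩
  obtain ⟨A, hA⟩ := exists_params C (M + 2) d' Lc hLc1
  refine ⟨8 * (d' + 1) + 1, A, fun n hn => ?_⟩
  obtain ⟨N, R, w₀, δ, e, ε, hN, hR, hδ, hε, heε, hεδ, hδ1, hεA, h2w, hw1, hw2, hCR, hcard⟩ :=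
    hA n hn
  have hn0 : (0 : ℝ) < n := by exact_mod_cast (by omega : 0 < n)
  have hn2 : (2 : ℝ) ≤ n := by exact_mod_cast hn
  obtain ⟨P, hP⟩ : ∃ P, P = (M + 2) * (5 * n + 1) := ⟨_, rfl⟩
  obtain ⟨P₁, hP₁⟩ : ∃ P₁, P₁ = M * (5 * n + 1) := ⟨_, rfl⟩
  have hPpos : 0 < P := by rw [hP]; positivity
  have hP₁pos : 0 < P₁ := by rw [hP₁]; positivity
  have hT : (0 : ℝ) < 5 * n := by positivity
  have hR0 : (0 : ℝ) < R := by exact_mod_cast hR
  have hLc0 : (1 : ℝ) ≤ Lc := by exact_mod_cast hLc1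
  have he0 : 0 ≤ e := by rw [heε]; positivity
  have hCr : (8 : ℝ) ≤ C := by
    have : 8 ≤ C := by omega
    exact_mod_cast this
  -- the precision
  have hC0 : (0 : ℝ) ≤ C / R := by positivity
  have hprec1 : (C / R : ℝ) ≤ ε := by
    have h1 : (C / R : ℝ) ^ 2 ≤ ε ^ 2 := by
      have : 0 ≤ (C / R : ℝ) * (5 * n) := by positivity
      linarith
    exact le_of_sq_le_sq h1 hε.le
  have hprec2 : (1 / R : ℝ) * (1 + 5 * n) ≤ ε := by
    have h1 : (C / R : ℝ) * (5 * n) ≤ ε ^ 2 := by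
      have : 0 ≤ (C / R : ℝ) ^ 2 := by positivity
      linarith
    have h2 : ε ^ 2 ≤ ε := by nlinarith
    have h3 : (1 / R : ℝ) * (1 + 5 * n) ≤ (C / R : ℝ) * (5 * n) := by
      rw [div_mul_eq_mul_div, div_mul_eq_mul_div]
      refine div_le_div_of_nonneg_right ?_ hR0.le
      nlinarith
    linarith
  have hprec3 : (3 / R : ℝ) ≤ ε / 2 := by
    have h1 : (3 / R : ℝ) ≤ C / R / 2 := by
      rw [div_div, div_le_div_iff₀ hR0 (by positivity)]
      nlinarith
    linarith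
  have hRn : 5 * n ≤ R := by
    have h1 : (1 / R : ℝ) * (1 + 5 * n) ≤ 1 := by linarith
    rw [div_mul_eq_mul_div, one_mul, div_le_one hR0] at h1
    have h2 : ((5 * n : ℕ) : ℝ) ≤ R := by
      push_cast
      linarith
    exact_mod_cast h2
  -- the windows of the lengths `i / R`
  obtain ⟨Bd, hBd⟩ : ∃ Bd, Bd = 2 ^ (C1 * P₁ ^ 2) * (R + 1) ^ (2 * (d + 1)) := ⟨_, rfl⟩
  have hcls : ∀ i : ℕ, ∃ cls : Win K P₁ ((i : ℝ) / R) → Fin Bd,
      ∀ w w', cls w = cls w' → Same R w w' := by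
    intro i
    obtain ⟨Cl, _, cls, h1, h2⟩ := hC1 P₁ R ((i : ℝ) / R) hP₁pos hR (by positivity)
    rw [← hBd] at h1
    obtain ⟨f⟩ : Nonempty (Cl ↪ Fin Bd) := by
      rw [Function.Embedding.nonempty_iff_card_le, Fintype.card_fin]
      exact h1
    exact ⟨fun w => f (cls w), fun w w' h => h2 w w' (f.injective h)⟩
  choose cls hcls using hcls
  have hwin : ∀ (i : ℕ) (ω : Pth X n), (i : ℝ) / R ≤ ω.v * (5 * n) →
      ∃ w : Win K P₁ ((i : ℝ) / R), ∀ s, w.γ s = endPt geo ω.x ω.y s := by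
    intro i ω h
    rw [hP₁]
    exact exists_window hw ω (by positivity) h
  choose W hW using hwin
  obtain ⟨ix, hix⟩ : ∃ ix : Pth X n → ℕ, ∀ ω, ix ω = ⌊ω.v * (5 * n) * R⌋₊ := ⟨_, fun _ => rfl⟩
  have hTω : ∀ ω : Pth X n, ω.v * (5 * n) ≤ 5 * n := by
    intro ω
    have := mul_le_mul_of_nonneg_right ω.v1 hT.le
    linarith
  have hTω0 : ∀ ω : Pth X n, 0 ≤ ω.v * (5 * n) := fun ω => mul_nonneg ω.v0 hT.le
  have hix1 : ∀ ω, (ix ω : ℝ) / R ≤ ω.v * (5 * n) := by
    intro ω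
    rw [div_le_iff₀ hR0, hix]
    exact Nat.floor_le (mul_nonneg (hTω0 ω) hR0.le)
  have hix2 : ∀ ω, ω.v * (5 * n) ≤ (ix ω : ℝ) / R + 1 / R := by
    intro ω
    rw [← add_div, le_div_iff₀ hR0, hix]
    exact (Nat.lt_floor_add_one _).le
  have hix3 : ∀ ω, ix ω ≤ 5 * n * R := by
    intro ω
    rw [hix]
    have h1 : ω.v * (5 * n) * R ≤ ((5 * n * R : ℕ) : ℝ) := by
      push_cast
      exact mul_le_mul_of_nonneg_right (hTω ω) hR0.le
    have := Nat.floor_le_floor h1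
    rwa [Nat.floor_natCast] at this
  -- the first values
  have hf01 : ∀ (ω : Pth X n) (k : Fin (d + 1)) (s : ℝ), 0 ≤ fPth K geo d ω k s ∧
      fPth K geo d ω k s ≤ 1 := by
    intro ω k s
    unfold fPth
    split_ifs with h
    · obtain ⟨σ, _, hσ, _⟩ := exists_carrier K (endPt geo ω.x ω.y (ω.v * s))
      refine ⟨hσ.tail_nonneg _, (hσ.tail_le (σ := ∅) (by simp)).trans ?_⟩
      simp [gs]
    · exact ⟨zz_nonneg _, (zz_le_half _).trans (by norm_num)⟩
  -- the classes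
  obtain ⟨cl, hcl⟩ : ∃ cl : Pth X n → Fin (5 * n * R + 1) × Fin Bd × (Fin (d + 1) → Fin (R + 1)) ×
      Fin (R + 1) × Fin (2 * R + 1), ∀ ω, cl ω = (⟨ix ω, Nat.lt_succ_of_le (hix3 ω)⟩,
        cls (ix ω) (W (ix ω) ω (hix1 ω)), (fun k => rnd R R (fPth K geo d ω k 0)),
        rnd R R (Int.fract ω.a), rnd R (2 * R) (ω.w + 1)) := ⟨_, fun _ => rfl⟩
  have hsame : ∀ (i j : ℕ) (ω ω' : Pth X n) (hi : (i : ℝ) / R ≤ ω.v * (5 * n))
      (hj : (j : ℝ) / R ≤ ω'.v * (5 * n)) (hij : i = j), cls i (W i ω hi) = cls j (W j ω' hj) →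
      Same R (W i ω hi) (W i ω' (hij ▸ hj)) := by
    intro i j ω ω' hi hj hij h
    subst hij
    exact hcls i _ _ h
  obtain ⟨rv, hrv⟩ : ∃ rv : Fin (d + 1) → Fin N → ℝ,
      ∀ k j, rv k j = (1 + ((j : ℕ) : ℝ) / N) / 4 ^ ((k : ℕ) + 1) := ⟨_, fun _ _ => rfl⟩
  have hN0 : (0 : ℝ) < N := by exact_mod_cast hN
  have hsep : ∀ k j j', j ≠ j' → 2 * w₀ ≤ |rv k j - rv k j'| := by
    intro k j j' hne
    have h4 : rv k j - rv k j' =
        (((j : ℕ) : ℝ) - ((j' : ℕ) : ℝ)) / (4 ^ ((k : ℕ) + 1) * N) := by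
      rw [hrv, hrv]; field_simp; ring
    rw [h4, abs_div]
    have h5 : (1 : ℝ) ≤ |((j : ℕ) : ℝ) - ((j' : ℕ) : ℝ)| := by
      have : ((j : ℕ) : ℤ) - ((j' : ℕ) : ℤ) ≠ 0 := by
        intro h
        exact hne (Fin.ext (by omega))
      have h6 : (1 : ℤ) ≤ |((j : ℕ) : ℤ) - ((j' : ℕ) : ℤ)| := Int.one_le_abs this
      exact_mod_cast h6
    have h6 : (4 : ℝ) ^ ((k : ℕ) + 1) ≤ 4 ^ d' :=
      pow_le_pow_right₀ (by norm_num) (by have := k.2; omega)
    have h7 : |(4 : ℝ) ^ ((k : ℕ) + 1) * (N : ℝ)| ≤ 4 ^ d' * N := by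
      rw [abs_of_pos (by positivity)]
      exact mul_le_mul_of_nonneg_right h6 (by positivity)
    exact h2w.trans (div_le_div₀ (abs_nonneg _) h5 (abs_pos.2 (by positivity)) h7)
  choose t ht using fun (ω : Pth X n) (k : Fin (d + 1)) =>
    pcc_fPth hM hw hL hlip hLc hLc1 ω k
  rw [← hP] at ht
  obtain ⟨vv, hvv⟩ := index_abstractK (Ω := Pth X n) (n := d + 1) (P := P)
    (K := 8 * (d' + 1) + 1) (T := 5 * n) (L := Lc) t (fPth K geo d) cl ht hPpos hδ he0
    (by linarith) hw1 hw2 rv hsep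
    (by
      intro ω ω' hωω' k s hs
      rw [hcl, hcl, Prod.mk.injEq, Prod.mk.injEq, Prod.mk.injEq, Prod.mk.injEq] at hωω'
      obtain ⟨g1, g2, g3, g4, g5⟩ := hωω'
      have g1' : ix ω = ix ω' := congrArg Fin.val g1
      have hS := hsame _ _ ω ω' (hix1 ω) (hix1 ω') g1' g2
      have hε' : ε ≤ Lc * ε := by nlinarith
      by_cases hk : (k : ℕ) < d
      · -- the complex
        have hfk : ∀ (ω : Pth X n) s, fPth K geo d ω k s =
            tail ((k : ℕ) + 1) (K.co (endPt geo ω.x ω.y (ω.v * s))) := fun ω s => if_pos hk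
        have hlipk : ∀ p q : X, |tail ((k : ℕ) + 1) (K.co p) - tail ((k : ℕ) + 1) (K.co q)| ≤
            Lc * dist p q := by
          intro p q
          refine (tail_lipX hlip ((k : ℕ) + 1) p q).trans
            (mul_le_mul_of_nonneg_right ?_ dist_nonneg)
          exact (mul_le_mul_of_nonneg_right (by exact_mod_cast hk) hL.le).trans hLc
        obtain ⟨T₀, hT₀⟩ : ∃ T₀ : ℝ, T₀ = (ix ω : ℝ) / R := ⟨_, rfl⟩
        have hT₀0 : 0 ≤ T₀ := by rw [hT₀]; positivity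
        have hb1 : T₀ ≤ ω.v * (5 * n) := by rw [hT₀]; exact hix1 ω
        have hb2 : ω.v * (5 * n) ≤ T₀ + 1 / R := by rw [hT₀]; exact hix2 ω
        have hb1' : T₀ ≤ ω'.v * (5 * n) := by rw [hT₀, g1']; exact hix1 ω'
        have hb2' : ω'.v * (5 * n) ≤ T₀ + 1 / R := by rw [hT₀, g1']; exact hix2 ω'
        have hvs : 0 ≤ ω.v * s := mul_nonneg ω.v0 hs.1
        have hvs' : 0 ≤ ω'.v * s := mul_nonneg ω'.v0 hs.1
        have hvT : ω.v * s ≤ ω.v * (5 * n) := mul_le_mul_of_nonneg_left hs.2 ω.v0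
        have hvT' : ω'.v * s ≤ ω'.v * (5 * n) := mul_le_mul_of_nonneg_left hs.2 ω'.v0
        have hR1 : (0 : ℝ) ≤ 1 / R := by positivity
        -- the common time
        obtain ⟨z, hz⟩ : ∃ z : ℝ, z = min (ω.v * s) T₀ := ⟨_, rfl⟩
        have hz0 : 0 ≤ z := by rw [hz]; exact le_min hvs hT₀0
        have hzT : z ≤ T₀ := by rw [hz]; exact min_le_right _ _
        have hz1 : |ω.v * s - z| ≤ 1 / R := by
          rw [hz, abs_of_nonneg (by linarith [min_le_left (ω.v * s) T₀])]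
          rcases le_total (ω.v * s) T₀ with h | h
          · rw [min_eq_left h]
            linarith
          · rw [min_eq_right h]
            linarith
        have hvv' : |ω.v * s - ω'.v * s| ≤ 1 / R := by
          have h1 : |ω.v - ω'.v| * (5 * n) ≤ 1 / R := by
            have h2 : |ω.v - ω'.v| * (5 * n) = |(ω.v - ω'.v) * (5 * n)| := by
              rw [abs_mul, abs_of_pos hT]
            rw [h2, sub_mul, abs_le]
            constructor <;> linarith
          rw [← sub_mul, abs_mul, abs_of_nonneg hs.1]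
          exact (mul_le_mul_of_nonneg_left hs.2 (abs_nonneg _)).trans h1
        have hz2 : |z - ω'.v * s| ≤ 2 / R := by
          have h1 := abs_sub_le z (ω.v * s) (ω'.v * s)
          have h3 : |z - ω.v * s| ≤ 1 / R := by
            rw [abs_sub_comm]
            exact hz1
          have h2 : (2 : ℝ) / R = 1 / R + 1 / R := by ring
          linarith
        have k1 := hlipk (endPt geo ω.x ω.y (ω.v * s)) (endPt geo ω.x ω.y z)
        have k2 := hlipk (endPt geo ω'.x ω'.y z) (endPt geo ω'.x ω'.y (ω'.v * s))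
        have k3 := hspeed ω.x ω.y (ω.v * s) z hvs (hvT.trans ω.le) hz0
          (hzT.trans (hb1.trans ω.le))
        have k4 := hspeed ω'.x ω'.y z (ω'.v * s) hz0 (hzT.trans (hb1'.trans ω'.le)) hvs'
          (hvT'.trans ω'.le)
        have k5 : |tail ((k : ℕ) + 1) (K.co (endPt geo ω.x ω.y z)) -
            tail ((k : ℕ) + 1) (K.co (endPt geo ω'.x ω'.y z))| ≤ Lc * (ε / 2) := by
          rcases hT₀0.eq_or_lt with h0 | h0
          · -- the windows are short
            have hz00 : z = 0 := le_antisymm (h0 ▸ hzT) hz0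
            have h1 := congrFun g3 k
            have h2 := rnd_close hR (hf01 ω k 0).1 (hf01 ω' k 0).1
              (mul_le_of_le_one_left hR0.le (hf01 ω k 0).2)
              (mul_le_of_le_one_left hR0.le (hf01 ω' k 0).2) h1
            rw [hfk, hfk, mul_zero, mul_zero] at h2
            rw [hz00]
            refine h2.trans ?_
            have h3 : (1 : ℝ) / R ≤ 3 / R := div_le_div_of_nonneg_right (by norm_num) hR0.le
            nlinarith
          · obtain ⟨b, ⟨ψ, hinj, hψ⟩, hb⟩ := hC2 P₁ R ((ix ω : ℝ) / R) hP₁pos hR (hT₀ ▸ h0) _ _ hS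
              z ⟨hz0, hT₀ ▸ hzT⟩
            rw [hW] at hinj hψ hb
            obtain ⟨σ, _, hσ, _⟩ := exists_carrier K (endPt geo ω'.x ω'.y z)
            obtain ⟨σ', _, hσ', _⟩ := exists_carrier K b
            have h1 : tail ((k : ℕ) + 1) (K.co (endPt geo ω'.x ω'.y z)) =
                tail ((k : ℕ) + 1) (K.co b) := (tail_transp hσ hσ' hinj hψ _).symm
            rw [h1]
            refine (hlipk _ _).trans (mul_le_mul_of_nonneg_left ?_ (by linarith))
            rw [dist_comm]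
            have h2 : dist b (endPt geo ω.x ω.y z) ^ 2 ≤ (ε / 2) ^ 2 := by
              refine hb.trans ?_
              have h3 : (C2 / R : ℝ) ≤ C / R / 4 := by
                rw [div_div, div_le_div_iff₀ hR0 (by positivity)]
                have : (4 * C2 : ℝ) ≤ C := by
                  have : 4 * C2 ≤ C := by omega
                  exact_mod_cast this
                nlinarith
              have h30 : (0 : ℝ) ≤ C2 / R := by positivity
              have h4 : (ix ω : ℝ) / R ≤ 5 * n := by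
                rw [← hT₀]
                exact hb1.trans (hTω ω)
              have h40 : (0 : ℝ) ≤ (ix ω : ℝ) / R := by positivity
              have h5 : (C2 / R : ℝ) * ((ix ω : ℝ) / R) ≤ C / R / 4 * (5 * n) :=
                mul_le_mul h3 h4 h40 (by positivity)
              have h6 : (C2 / R : ℝ) ^ 2 ≤ (C / R / 4) ^ 2 := pow_le_pow_left₀ h30 h3 2
              nlinarith [sq_nonneg (C / R : ℝ)]
            exact le_of_sq_le_sq h2 (by linarith)
        rw [hfk, hfk, heε]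
        have k6 := abs_sub_le (tail ((k : ℕ) + 1) (K.co (endPt geo ω.x ω.y (ω.v * s))))
          (tail ((k : ℕ) + 1) (K.co (endPt geo ω.x ω.y z)))
          (tail ((k : ℕ) + 1) (K.co (endPt geo ω'.x ω'.y (ω'.v * s))))
        have k7 := abs_sub_le (tail ((k : ℕ) + 1) (K.co (endPt geo ω.x ω.y z)))
          (tail ((k : ℕ) + 1) (K.co (endPt geo ω'.x ω'.y z)))
          (tail ((k : ℕ) + 1) (K.co (endPt geo ω'.x ω'.y (ω'.v * s))))
        have k8 : (Lc : ℝ) * dist (endPt geo ω.x ω.y (ω.v * s)) (endPt geo ω.x ω.y z) ≤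
            Lc * (1 / R) := mul_le_mul_of_nonneg_left (k3.trans hz1) (by linarith)
        have k9 : (Lc : ℝ) * dist (endPt geo ω'.x ω'.y z) (endPt geo ω'.x ω'.y (ω'.v * s)) ≤
            Lc * (2 / R) := mul_le_mul_of_nonneg_left (k4.trans hz2) (by linarith)
        have k10 : (Lc : ℝ) * (1 / R) + Lc * (2 / R) = Lc * (3 / R) := by ring
        have k11 : (Lc : ℝ) * (3 / R) ≤ Lc * (ε / 2) :=
          mul_le_mul_of_nonneg_left hprec3 (by linarith)
        have k12 : (Lc : ℝ) * (ε / 2) + Lc * (ε / 2) = Lc * ε := by ring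
        linarith
      · -- the line
        have hfk : ∀ (ω : Pth X n) s, fPth K geo d ω k s = zz (ω.a + ω.w * s) :=
          fun ω s => if_neg hk
        rw [hfk, hfk]
        have hw1 := abs_le.1 ω.w1
        have hw1' := abs_le.1 ω'.w1
        have h1 := rnd_close hR (Int.fract_nonneg _) (Int.fract_nonneg _)
          (mul_le_of_le_one_left hR0.le (Int.fract_lt_one _).le)
          (mul_le_of_le_one_left hR0.le (Int.fract_lt_one _).le) g4
        have h2 := rnd_close (x := ω.w + 1) (y := ω'.w + 1) hR (by linarith) (by linarith)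
          (by
            push_cast
            exact mul_le_mul_of_nonneg_right (by linarith) hR0.le)
          (by
            push_cast
            exact mul_le_mul_of_nonneg_right (by linarith) hR0.le) g5
        rw [add_sub_add_right_eq_sub] at h2
        refine (zz_close hs.1 hs.2 h1 h2 (by positivity)).trans ?_
        rw [heε]
        linarith)
    hN (by
      refine lt_of_le_of_lt ?_ hcard
      rw [← hP]
      refine Nat.mul_le_mul ?_ (Nat.pow_le_pow_left (Nat.mul_le_mul_right _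
        (Nat.mul_le_mul_left _ (Nat.pow_le_pow_left (by omega) 2))) _)
      simp only [Fintype.card_prod, Fintype.card_fin, Fintype.card_fun]
      have h1 : 5 * n * R + 1 ≤ (R + 1) ^ 2 := by nlinarith
      have h2 : Bd ≤ 2 ^ (C * P ^ 2) * (R + 1) ^ (2 * (d + 1)) := by
        rw [hBd]
        refine Nat.mul_le_mul_right _ (Nat.pow_le_pow_right (by norm_num) ?_)
        refine Nat.mul_le_mul (by omega) (Nat.pow_le_pow_left ?_ 2)
        rw [hP₁, hP]
        exact Nat.mul_le_mul_right _ (by omega)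
      have h3 : 2 * R + 1 ≤ (R + 1) ^ 2 := by nlinarith
      calc (5 * n * R + 1) * (Bd * ((R + 1) ^ (d + 1) * ((R + 1) * (2 * R + 1))))
          ≤ (R + 1) ^ 2 * ((2 ^ (C * P ^ 2) * (R + 1) ^ (2 * (d + 1))) *
            ((R + 1) ^ (d + 1) * ((R + 1) * (R + 1) ^ 2))) := by gcongr
        _ = 2 ^ (C * P ^ 2) * (R + 1) ^ (2 + 2 * (d + 1) + (d + 1) + 1 + 2) := by
            simp only [pow_add, pow_one]
            ring
        _ ≤ 2 ^ (C * P ^ 2) * (R + 1) ^ (2 * (d' + 1)) :=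
            Nat.mul_le_mul_left _ (Nat.pow_le_pow_right (by omega) (by omega)))
  -- the thresholds
  obtain ⟨xx, hxx⟩ : ∃ xx : Fin (8 * (d' + 1) + 1) → ℕ → ℝ, ∀ j k, xx j k =
    if h : k < d + 1 then ((vv j ⟨k, h⟩ : ℕ) : ℝ) / N else 0 := ⟨_, fun _ _ => rfl⟩
  have hx01 : ∀ j k, 0 ≤ xx j k ∧ xx j k ≤ 1 := by
    intro j k
    rw [hxx]
    split_ifs with h
    · refine ⟨by positivity, ?_⟩
      rw [div_le_one hN0]
      exact_mod_cast (vv j ⟨k, h⟩).2.le
    · exact ⟨le_rfl, zero_le_one⟩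
  have hrho : ∀ j : Fin (8 * (d' + 1) + 1), 0 ≤ mkThr (xx j) (d + 1) ∧
      mkThr (xx j) (d + 1) ≤ 1 / 2 := by
    intro j
    have h1 := hx01 j d
    have h2 : (4 : ℝ) ^ (d + 1) ≥ 4 := by
      calc (4 : ℝ) = 4 ^ 1 := (pow_one 4).symm
        _ ≤ 4 ^ (d + 1) := pow_le_pow_right₀ (by norm_num) (by omega)
    refine ⟨?_, ?_⟩
    · show 0 ≤ (1 + xx j d) / 4 ^ (d + 1)
      have := h1.1
      positivity
    · show (1 + xx j d) / 4 ^ (d + 1) ≤ 1 / 2
      rw [div_le_div_iff₀ (by positivity) (by norm_num)]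
      linarith [h1.2]
  refine ⟨fun j => (⟨mkThr (xx j), isThr_mkThr (hx01 j)⟩, ⟨mkThr (xx j) (d + 1), hrho j⟩),
    fun _ => δ, ε, hε, hεA, fun _ => ⟨hεδ, hδ1⟩, fun x y v a w hv0 hv1 hw' hxy => ?_⟩
  obtain ⟨ω, hω⟩ : ∃ ω : Pth X n, ω = ⟨x, y, v, a, w, hv0, hv1, hw', hxy⟩ := ⟨_, rfl⟩
  obtain ⟨j, hj⟩ := hvv ω
  refine ⟨j, fun s hs s' hs' hb hb' => ?_⟩
  have hbad : ∀ s, ¬ (farP K Lc d (mkThr (xx j)) ε (endPt geo x y (v * s)) ∧
      ε ≤ |zz (a + w * s) - mkThr (xx j) (d + 1)|) →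
      ∃ k : Fin (d + 1), |fPth K geo d ω k s - rv k (vv j k)| < e := by
    intro s hs
    have hmk : ∀ k (hk : k < d + 1), mkThr (xx j) (k + 1) = rv ⟨k, hk⟩ (vv j ⟨k, hk⟩) := by
      intro k hk
      rw [hrv]
      show (1 + xx j k) / 4 ^ (k + 1) = _
      rw [hxx, dif_pos hk]
    by_cases hfar : farP K Lc d (mkThr (xx j)) ε (endPt geo x y (v * s))
    · have h1 : |zz (a + w * s) - mkThr (xx j) (d + 1)| < ε := by
        by_contra hcon
        push Not at hcon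
        exact hs ⟨hfar, hcon⟩
      refine ⟨⟨d, by omega⟩, ?_⟩
      have h2 : fPth K geo d ω ⟨d, by omega⟩ s = zz (a + w * s) := by
        rw [hω]
        exact if_neg (lt_irrefl d)
      rw [h2, ← hmk d (by omega), heε]
      nlinarith
    · unfold farP at hfar
      push Not at hfar
      obtain ⟨k, hk1, hk2, hk⟩ := hfar
      obtain ⟨k', rfl⟩ : ∃ k', k = k' + 1 := ⟨k - 1, by omega⟩
      refine ⟨⟨k', by omega⟩, ?_⟩
      have h2 : fPth K geo d ω ⟨k', by omega⟩ s =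
          tail (k' + 1) (K.co (endPt geo x y (v * s))) := by
        rw [hω]
        exact if_pos (show k' < d by omega)
      rw [h2, ← hmk k' (by omega), heε]
      exact hk
  obtain ⟨k, hk⟩ := hbad s hb
  obtain ⟨k', hk'⟩ := hbad s' hb'
  exact hj s hs s' hs' k k' hk hk'

end Pool.Agent.ND
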